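import Pool.Agent.Lib.MP_9a50b7_lc.NoFP.Imp

/-!
# The four improvement cases (module CASES)

Every word `v` of one of the four shapes below can be improved for the functional `TT`.
-/

set_option autoImplicit false

namespace Pool.Agent.MP9a50b7.NoFP

variable {e p f q : ℝ}

private theorem cs_rep_zero (w : List Bool) : rep 0 w = [] := by simp [rep]

private theorem cs_rep_succ (k : ℕ) (w : List Bool) : rep (k + 1) w = w ++ rep k w := by
  simp [rep, List.replicate_succ]

private theorem cs_rep_length (k : ℕ) (w : List Bool) : (rep k w).length = k * w.length := by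
  induction k with
  | zero => simp [cs_rep_zero]
  | succ k ih => rw [cs_rep_succ, List.length_append, ih]; ring

private theorem cs_GG_nil (e p f q : ℝ) : GG e p f q [] = 1 := by
  simp [GG, g_nil, g3_nil]

private theorem cs_GG_false_cons (e p f q : ℝ) (w : List Bool) :
    GG e p f q (false :: w) = GG e p f q w := by
  simp only [GG, g_false_cons, g3_false_cons]

private theorem cs_GG_concat_false (e p f q : ℝ) (w : List Bool) :
    GG e p f q (w ++ [false]) = GG e p f q w := by
  simp only [GG, g_concat_false, g3_concat_false]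

private theorem cs_GG_append_replicate (e p f q : ℝ) (w : List Bool) (n : ℕ) :
    GG e p f q (w ++ List.replicate n false) = GG e p f q w := by
  induction n with
  | zero => simp
  | succ n ih =>
    rw [List.replicate_succ', ← List.append_assoc, cs_GG_concat_false, ih]

private theorem cs_GG_true (e p f q : ℝ) :
    GG e p f q [true] = (p * rp e p) * (q * rp f q) := by
  simp only [GG, g_true, g3_true]

/-- Basic numerical facts about the parameters. -/
private theorem cs_num (h : Om e p f q) :
    0 < e ∧ e ≤ 1 / 1000 ∧ 0 < f ∧ 100 * e ^ 2 ≤ f ∧ f ≤ e / 100 ∧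
    99 / 100 ≤ rp e p ∧ 99 / 100 ≤ rp f q ∧ 0 < p ∧ 0 < q := by
  have he := h.ge.pos
  have he1 := h.ge.le
  have hf := h.gf.pos
  have h1 := h.ge.ren
  have h2 := h.gf.ren
  refine ⟨he, he1, hf, h.lo, h.hi, ?_, ?_, ?_, ?_⟩
  · have := h1.lo
    have h3 := sq_nonneg (re e p)
    linarith
  · have := h2.lo
    have h3 := sq_nonneg (re f q)
    linarith
  · have := h.ge.lo
    have h3 := sq_nonneg e
    linarith
  · have := h.gf.lo
    have h3 := sq_nonneg f
    linarith

private theorem cs_hjct_left3 (h : Om e p f q) (x : List Bool) (k : ℕ) :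
    (1 - 1 / 1000 * e ^ 2) * (GG e p f q (x ++ [false, false, false]) *
      GG e p f q (rep k (x ++ [false, false, false]))) ≤
      GG e p f q ((x ++ [false, false, false]) ++ rep k (x ++ [false, false, false])) :=
  GG_append_ge_left3 h x _

private theorem cs_D_pos (h : Om e p f q) : 0 < 1 - 1 / 1000 * e ^ 2 := by
  obtain ⟨he, he1, -⟩ := cs_num h
  nlinarith

/-- The word `v = a^m` is improved by `v' = (b a a a a)^m`. -/
theorem case_A (h : Om e p f q) (m : ℕ) (hm : 0 < m) :
    Imp (TT e p f q) (List.replicate m false) := by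
  obtain ⟨he, he1, hf, hlo, hhi, hp', hq', hp, hq⟩ := cs_num h
  obtain ⟨m, rfl⟩ : ∃ n, m = n + 1 := ⟨m - 1, by omega⟩
  set B : List Bool := [true, false, false, false, false] with hB
  have hB3 : B = [true, false] ++ [false, false, false] := by simp [hB]
  have hGB : GG e p f q B = (p * rp e p) * (q * rp f q) := by
    have : B = [true] ++ List.replicate 4 false := by simp [hB, List.replicate]
    rw [this, cs_GG_append_replicate, cs_GG_true]
  have hD := cs_D_pos h
  have hpow : ∀ k : ℕ, ((1 - 1 / 1000 * e ^ 2) * ((p * rp e p) * (q * rp f q))) ^ (k + 1) ≤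
      (1 - 1 / 1000 * e ^ 2) * GG e p f q (rep (k + 1) B) := by
    intro k
    induction k with
    | zero => rw [zero_add, pow_one, cs_rep_succ, cs_rep_zero, List.append_nil, hGB]
    | succ k ih =>
      rw [cs_rep_succ (k + 1), pow_succ]
      have h1 := GG_append_ge_left3 h [true, false] (rep (k + 1) B)
      rw [← hB3, hGB] at h1
      have hpos : 0 < (p * rp e p) * (q * rp f q) := by positivity
      calc ((1 - 1 / 1000 * e ^ 2) * ((p * rp e p) * (q * rp f q))) ^ (k + 1) *
            ((1 - 1 / 1000 * e ^ 2) * ((p * rp e p) * (q * rp f q)))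
          ≤ ((1 - 1 / 1000 * e ^ 2) * GG e p f q (rep (k + 1) B)) *
            ((1 - 1 / 1000 * e ^ 2) * ((p * rp e p) * (q * rp f q))) :=
            mul_le_mul_of_nonneg_right ih (by positivity)
        _ = (1 - 1 / 1000 * e ^ 2) * ((1 - 1 / 1000 * e ^ 2) *
            (((p * rp e p) * (q * rp f q)) * GG e p f q (rep (k + 1) B))) := by ring
        _ ≤ _ := mul_le_mul_of_nonneg_left h1 hD.le
  have hGv : GG e p f q (List.replicate (m + 1) false) = 1 := by
    have := cs_GG_append_replicate e p f q [] (m + 1)
    rwa [List.nil_append, cs_GG_nil] at this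
  have hend : ∃ x, rep (m + 1) B = x ++ [false, false, false] := by
    clear hpow hGv hm
    induction m with
    | zero => exact ⟨[true, false], by simp [cs_rep_succ, cs_rep_zero, hB]⟩
    | succ n ih =>
      obtain ⟨x, hx⟩ := ih
      exact ⟨B ++ x, by rw [cs_rep_succ, hx, List.append_assoc]⟩
  obtain ⟨x, hx⟩ := hend
  refine imp_of_lt h (j := 5) (v' := rep (m + 1) B) (by norm_num) ?_ hD ?_ ?_
  · rw [cs_rep_length, List.length_replicate, hB]
    simp
    ring
  · intro k
    rw [hx]
    exact cs_hjct_left3 h x k
  · rw [hGv, one_pow]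
    refine lt_of_lt_of_le ?_ (hpow m)
    have h1 := h.ge.prp_ge
    have h2 := h.gf.prp_ge
    have h3 : (1 : ℝ) ≤ q * rp f q := by nlinarith [sq_nonneg f]
    have h4 : 1 < (1 - 1 / 1000 * e ^ 2) * (p * rp e p) := by
      have h5 : (1 - 1 / 1000 * e ^ 2) * (1 + 19 / 10 * e ^ 2) ≤
          (1 - 1 / 1000 * e ^ 2) * (p * rp e p) := mul_le_mul_of_nonneg_left h1 hD.le
      have h6 : e ^ 2 ≤ 1 := by nlinarith
      have h7 : 0 < e ^ 2 := by positivity
      nlinarith
    have h8 : 1 < (1 - 1 / 1000 * e ^ 2) * ((p * rp e p) * (q * rp f q)) := by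
      rw [← mul_assoc]
      nlinarith
    exact one_lt_pow₀ h8 (by omega)

/-- Two consecutive letters `b`. -/
theorem case_bb (h : Om e p f q) (w : List Bool) :
    Imp (TT e p f q) (true :: true :: w) := by
  obtain ⟨he, he1, hf, hlo, hhi, hp', hq', hp, hq⟩ := cs_num h
  have hD : 0 < 1 - e / 25 := by linarith
  refine imp_of_lt h (j := 1) (v' := false :: true :: w) (by norm_num) (by simp) hD ?_ ?_
  · intro k
    cases k with
    | zero =>
      rw [cs_rep_zero, cs_GG_nil, List.append_nil, mul_one]
      have := GG_pos h (false :: true :: w)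
      nlinarith
    | succ k =>
      rw [cs_rep_succ]
      exact GG_append_ge_a h _ _
  · rw [pow_one, cs_GG_false_cons]
    have hX := GG_pos h (true :: w)
    have e1 := g_true_true_le h.ge w
    have e2 := g_true_cons_le h.ge.ren (true :: w)
    have e3 := g3_true_cons_le h.gf (true :: w)
    have e4 := g3_true_cons_le h.gf.ren (true :: w)
    have a1 := g_pos h.ge (true :: w)
    have a2 := g_pos h.ge.ren (true :: w)
    have a3 := g3_pos h.gf (true :: w)
    have a4 := g3_pos h.gf.ren (true :: w)
    have b1 := g_pos h.ge (true :: true :: w)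
    have b2 := g_pos h.ge.ren (true :: true :: w)
    have b3 := g3_pos h.gf (true :: true :: w)
    have b4 := g3_pos h.gf.ren (true :: true :: w)
    have h0 : 0 < p - 24 / 25 * e := by
      have := h.ge.lo
      have h3 := sq_nonneg e
      linarith
    have key : GG e p f q (true :: true :: w) ≤
        (((p - 24 / 25 * e) * rp e p) * (q * rp f q)) * GG e p f q (true :: w) := by
      calc GG e p f q (true :: true :: w)
          ≤ (((p - 24 / 25 * e) * g e p (true :: w)) *
              (rp e p * g (re e p) (rp e p) (true :: w))) *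
            ((q * g3 f q (true :: w)) * (rp f q * g3 (re f q) (rp f q) (true :: w))) := by
            unfold GG
            gcongr
        _ = _ := by unfold GG; ring
    refine lt_of_le_of_lt key ?_
    refine mul_lt_mul_of_pos_right ?_ hX
    have h1 := h.ge.prp_le
    have h2 := h.gf.prp_le
    have h3 : (p - 24 / 25 * e) * rp e p ≤ 1 + 22 / 10 * e ^ 2 - 24 / 25 * (99 / 100) * e := by
      nlinarith
    have h4 : q * rp f q ≤ 1 + e ^ 2 := by nlinarith
    have h5 : 0 < (p - 24 / 25 * e) * rp e p := by
      have : 0 < p - 24 / 25 * e := by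
        have := h.ge.lo
        have h3 := sq_nonneg e
        linarith
      positivity
    calc ((p - 24 / 25 * e) * rp e p) * (q * rp f q)
        ≤ (1 + 22 / 10 * e ^ 2 - 24 / 25 * (99 / 100) * e) * (1 + e ^ 2) := by
          refine mul_le_mul h3 h4 (by positivity) (h5.le.trans h3)
      _ < 1 - e / 25 := by nlinarith [mul_pos he he, mul_pos (mul_pos he he) he]

/-- The pattern `b a a b`. -/
theorem case_baab (h : Om e p f q) (w : List Bool) :
    Imp (TT e p f q) (true :: false :: false :: true :: w) := by
  obtain ⟨he, he1, hf, hlo, hhi, hp', hq', hp, hq⟩ := cs_num h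
  have hD : 0 < 1 - 111 / 100 * e ^ 2 := by nlinarith
  refine imp_of_lt h (j := 1) (v' := false :: false :: false :: true :: w) (by norm_num)
    (by simp) hD ?_ ?_
  · intro k
    cases k with
    | zero =>
      rw [cs_rep_zero, cs_GG_nil, List.append_nil, mul_one]
      have := GG_pos h (false :: false :: false :: true :: w)
      nlinarith [sq_nonneg e]
    | succ k =>
      rw [cs_rep_succ]
      exact GG_append_ge_right3 h _ _
  · rw [pow_one, cs_GG_false_cons, cs_GG_false_cons, cs_GG_false_cons]
    have hX := GG_pos h (true :: w)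
    have e1 := g_true_cons_le h.ge (false :: false :: true :: w)
    have e2 := g_true_cons_le h.ge.ren (false :: false :: true :: w)
    have e3 := g3_baab_le h.gf w
    have e4 := g3_true_cons_le h.gf.ren (false :: false :: true :: w)
    rw [g_false_cons, g_false_cons] at e1 e2
    rw [g3_false_cons, g3_false_cons] at e4
    have a1 := g_pos h.ge (true :: w)
    have a2 := g_pos h.ge.ren (true :: w)
    have a3 := g3_pos h.gf (true :: w)
    have a4 := g3_pos h.gf.ren (true :: w)
    have b1 := g_pos h.ge (true :: false :: false :: true :: w)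
    have b2 := g_pos h.ge.ren (true :: false :: false :: true :: w)
    have b3 := g3_pos h.gf (true :: false :: false :: true :: w)
    have b4 := g3_pos h.gf.ren (true :: false :: false :: true :: w)
    have h0 : 0 < q - 24 / 25 * f := by
      have := h.gf.lo
      have h3 := sq_nonneg f
      linarith
    have key : GG e p f q (true :: false :: false :: true :: w) ≤
        ((p * rp e p) * ((q - 24 / 25 * f) * rp f q)) * GG e p f q (true :: w) := by
      calc GG e p f q (true :: false :: false :: true :: w)
          ≤ ((p * g e p (true :: w)) *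
              (rp e p * g (re e p) (rp e p) (true :: w))) *
            (((q - 24 / 25 * f) * g3 f q (true :: w)) *
              (rp f q * g3 (re f q) (rp f q) (true :: w))) := by
            unfold GG
            gcongr
        _ = _ := by unfold GG; ring
    refine lt_of_le_of_lt key ?_
    refine mul_lt_mul_of_pos_right ?_ hX
    have h1 := h.ge.prp_le
    have h2 := h.gf.prp_le
    have h3 : (q - 24 / 25 * f) * rp f q ≤ 1 + 22 / 10 * f ^ 2 - 24 / 25 * (99 / 100) * f := by
      nlinarith
    have h5 : 0 < (q - 24 / 25 * f) * rp f q := by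
      have : 0 < q - 24 / 25 * f := by
        have := h.gf.lo
        have h3 := sq_nonneg f
        linarith
      positivity
    have h6 : 1 + 22 / 10 * f ^ 2 - 24 / 25 * (99 / 100) * f ≤ 1 - 90 * e ^ 2 := by
      nlinarith
    have h7 : (q - 24 / 25 * f) * rp f q ≤ 1 - 90 * e ^ 2 := h3.trans h6
    calc (p * rp e p) * ((q - 24 / 25 * f) * rp f q)
        ≤ (1 + 22 / 10 * e ^ 2) * (1 - 90 * e ^ 2) := by
          refine mul_le_mul h1 h7 h5.le (by positivity)
      _ < 1 - 111 / 100 * e ^ 2 := by nlinarith [mul_pos he he]

/-- A gap of length at least four. -/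
theorem case_gap (h : Om e p f q) (n : ℕ) (hn : 4 ≤ n) (U : List Bool)
    (hU : U = [true] ∨ ∃ V, U = V ++ [false, true]) :
    Imp (TT e p f q) (U ++ List.replicate n false) := by
  obtain ⟨he, he1, hf, hlo, hhi, hp', hq', hp, hq⟩ := cs_num h
  obtain ⟨n, rfl⟩ : ∃ m, n = m + 4 := ⟨n - 4, by omega⟩
  have hD := cs_D_pos h
  have hrep : List.replicate (n + 3) false =
      List.replicate n false ++ [false, false, false] := by
    rw [List.replicate_add]; rfl
  have hcons : List.replicate (n + 3) false = false :: List.replicate (n + 2) false := by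
    rw [List.replicate_succ]
  set X : List Bool := U ++ false :: true :: List.replicate (n + 3) false with hX
  have hv' : ((U ++ List.replicate (n + 3) false) ++ X) =
      ((U ++ List.replicate (n + 3) false) ++ (U ++ false :: true :: List.replicate n false)) ++
        [false, false, false] := by
    rw [hX, hrep]
    simp [List.append_assoc]
  refine imp_of_lt h (j := 2) (v' := (U ++ List.replicate (n + 3) false) ++ X) (by norm_num)
    ?_ hD ?_ ?_
  · simp [hX]
    ring
  · intro k
    rw [hv']
    exact cs_hjct_left3 h _ k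
  · rw [cs_GG_append_replicate]
    have hGU := GG_pos h U
    have h1 : (1 - 1 / 1000 * e ^ 2) * (GG e p f q U * GG e p f q X) ≤
        GG e p f q ((U ++ List.replicate (n + 3) false) ++ X) := by
      have h2 := GG_append_ge_left3 h (U ++ List.replicate n false) X
      rw [List.append_assoc U, ← hrep, cs_GG_append_replicate] at h2
      exact h2
    have h3 : (1 - 111 / 100 * e ^ 2) * (GG e p f q U * ((p * rp e p) * (q * rp f q))) ≤
        GG e p f q X := by
      have h4 := GG_append_ge_aba h U (List.replicate (n + 2) false) hU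
      rw [← hcons] at h4
      have h5 : GG e p f q (false :: true :: List.replicate (n + 3) false) =
          (p * rp e p) * (q * rp f q) := by
        rw [cs_GG_false_cons]
        have := cs_GG_append_replicate e p f q [true] (n + 3)
        rw [cs_GG_true] at this
        exact this
      rw [h5] at h4
      exact h4
    have h6 := h.ge.prp_ge
    have h7 := h.gf.prp_ge
    have h8 : (1 : ℝ) ≤ q * rp f q := by nlinarith [sq_nonneg f]
    have he2 : 0 < e ^ 2 := by positivity
    have he3 : e ^ 2 ≤ 1 / 1000000 := by nlinarith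
    have h9 : 1 + 19 / 10 * e ^ 2 ≤ (p * rp e p) * (q * rp f q) := by nlinarith
    have hD2 : 0 < 1 - 111 / 100 * e ^ 2 := by nlinarith
    have h10 : (1 + 7 / 10 * e ^ 2) ≤
        (1 - 111 / 100 * e ^ 2) * ((p * rp e p) * (q * rp f q)) := by
      have := mul_le_mul_of_nonneg_left h9 hD2.le
      nlinarith
    have h11 : (1 + 7 / 10 * e ^ 2) * GG e p f q U ≤ GG e p f q X := by
      refine le_trans ?_ h3
      have := mul_le_mul_of_nonneg_right h10 hGU.le
      linarith
    have h12 : (1 - 1 / 1000 * e ^ 2) * (GG e p f q U * ((1 + 7 / 10 * e ^ 2) * GG e p f q U)) ≤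
        GG e p f q ((U ++ List.replicate (n + 3) false) ++ X) := by
      refine le_trans ?_ h1
      refine mul_le_mul_of_nonneg_left ?_ hD.le
      exact mul_le_mul_of_nonneg_left h11 hGU.le
    have h13 : GG e p f q U ^ 2 < (1 - 1 / 1000 * e ^ 2) * ((1 - 1 / 1000 * e ^ 2) *
        (GG e p f q U * ((1 + 7 / 10 * e ^ 2) * GG e p f q U))) := by
      have h14 : 1 < (1 - 1 / 1000 * e ^ 2) * ((1 - 1 / 1000 * e ^ 2) * (1 + 7 / 10 * e ^ 2)) := by
        nlinarith [mul_pos he2 he2]
      have h15 : 0 < GG e p f q U ^ 2 := by positivity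
      nlinarith
    exact lt_of_lt_of_le h13 (mul_le_mul_of_nonneg_left h12 hD.le)

end Pool.Agent.MP9a50b7.NoFP
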