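import Pool.Agent.Lib.MP_9a50b7_lc.NoFP.Cases

/-! The main induction: every periodic word can be improved. -/

set_option autoImplicit false

namespace Pool.Agent.MP9a50b7.NoFP

variable {ε p e f q : ℝ}

/-! ### words -/

theorem rep_add (k l : ℕ) (w : List Bool) : rep (k + l) w = rep k w ++ rep l w := by
  induction k with
  | zero => simp [rep_zero]
  | succ k ih => rw [Nat.succ_add, rep_succ, ih, rep_succ, List.append_assoc]

theorem rep_one (w : List Bool) : rep 1 w = w := by simp [rep]

theorem rep_succ' (k : ℕ) (w : List Bool) : rep (k + 1) w = rep k w ++ w := by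
  rw [rep_add, rep_one]

theorem rep_mul (k l : ℕ) (w : List Bool) : rep k (rep l w) = rep (k * l) w := by
  induction k with
  | zero => simp [rep_zero]
  | succ k ih => rw [rep_succ, ih, Nat.succ_mul, Nat.add_comm, rep_add]

theorem length_rep (k : ℕ) (w : List Bool) : (rep k w).length = k * w.length := by
  induction k with
  | zero => simp [rep_zero]
  | succ k ih => rw [rep_succ, List.length_append, ih]; ring

/-- `(xy)^(k+1) = x (yx)^k y` -/
theorem rep_append_succ (k : ℕ) (x y : List Bool) :
    rep (k + 1) (x ++ y) = x ++ (rep k (y ++ x) ++ y) := by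
  induction k with
  | zero => simp [rep_zero, rep_succ]
  | succ k ih => rw [rep_succ, ih, rep_succ k (y ++ x)]; simp

theorem sub_append (x y : List Bool) : sub (x ++ y) = sub x ++ sub y := by
  induction x with
  | nil => rfl
  | cons c x ih => simp [sub, ih]

theorem length_sub (w : List Bool) : (sub w).length = 2 * w.length := by
  induction w with
  | nil => rfl
  | cons c w ih => simp only [sub, List.length_cons, ih]; ring

theorem sub_rep (k : ℕ) (w : List Bool) : sub (rep k w) = rep k (sub w) := by
  induction k with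
  | zero => simp [rep_zero, sub]
  | succ k ih => rw [rep_succ, sub_append, ih, rep_succ]

/-! ### rotation -/

theorem T3_rot_append (ε p : ℝ) (x y : List Bool) (h : 3 ∣ (x ++ y).length) :
    T3 ε p (x ++ y) = T3 ε p (y ++ x) := by
  induction x generalizing y with
  | nil => simp
  | cons c x ih =>
    have h1 := T3_rot ε p c (x ++ y) (by simpa using h)
    rw [List.cons_append, ← h1, List.append_assoc,
      ih (y ++ [c]) (by
        have e : (x ++ (y ++ [c])).length = (c :: x ++ y).length := by simp; omega
        rw [e]; exact h)]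
    simp

theorem TT_rot (x y : List Bool) (h : 3 ∣ (x ++ y).length) :
    TT e p f q (x ++ y) = TT e p f q (y ++ x) := by
  unfold TT
  rw [T_rot e p x y, T_rot (re e p) (rp e p) x y, T3_rot_append f q x y h,
    T3_rot_append (re f q) (rp f q) x y h]

theorem TT_rep_rot (k : ℕ) (hk : 3 ∣ k) (x y : List Bool) :
    TT e p f q (rep k (x ++ y)) = TT e p f q (rep k (y ++ x)) := by
  rcases k with _ | k
  · simp [rep_zero]
  · have hl : 3 ∣ (rep (k + 1) (x ++ y)).length := by
      rw [length_rep]
      exact Dvd.dvd.mul_right hk _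
    rw [rep_append_succ] at hl ⊢
    rw [TT_rot _ _ hl, List.append_assoc, rep_succ']

theorem Imp.rot {x y : List Bool} (h : Imp (TT e p f q) (x ++ y)) :
    Imp (TT e p f q) (y ++ x) := by
  obtain ⟨j, v', c, κ, hj, hlen, hc, hκ, hk⟩ := h
  refine ⟨j, v', c, κ, hj, ?_, hc, hκ, fun k => ?_⟩
  · rw [hlen]; simp only [List.length_append]; ring
  · rw [TT_rep_rot _ (Dvd.intro _ (Nat.mul_assoc 3 j k).symm)]
    exact hk k

theorem Imp.of_rep {F : List Bool → ℝ} {m : ℕ} {v : List Bool} (hm : 0 < m)
    (h : Imp F (rep m v)) : Imp F v := by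
  obtain ⟨j, v', c, κ, hj, hlen, hc, hκ, hk⟩ := h
  refine ⟨j * m, v', c, κ, Nat.mul_pos hj hm, ?_, hc, hκ, fun k => ?_⟩
  · rw [hlen, length_rep]; ring
  · have := hk k
    rw [rep_mul] at this
    have e : 3 * j * k * m = 3 * (j * m) * k := by ring
    rwa [e] at this

/-! ### substitution -/

theorem TT_sub (h : Om e p f q) (w : List Bool) (hw : 3 ∣ w.length) :
    TT e p f q (sub w) =
      (R e p * R (re e p) (rp e p) * (R f q * R (re f q) (rp f q))) ^ w.length *
        TT (re e p) (rp e p) (re f q) (rp f q) w := by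
  unfold TT
  rw [T_sub h.ge, T_sub h.ge.ren, T3_sub h.gf _ hw, T3_sub h.gf.ren _ hw]
  simp only [mul_pow]
  ring

theorem Imp.sub (h : Om e p f q) {u : List Bool}
    (hu : Imp (TT (re e p) (rp e p) (re f q) (rp f q)) u) : Imp (TT e p f q) (sub u) := by
  obtain ⟨j, v', c, κ, hj, hlen, hc, hκ, hk⟩ := hu
  refine ⟨j, NoFP.sub v', c, κ, hj, ?_, hc, hκ, fun k => ?_⟩
  · rw [length_sub, length_sub, hlen]; ring
  · have hρ : 0 < R e p * R (re e p) (rp e p) * (R f q * R (re f q) (rp f q)) :=
      mul_pos (mul_pos h.ge.R_pos h.ge.ren.R_pos) (mul_pos h.gf.R_pos h.gf.ren.R_pos)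
    rw [← sub_rep, ← sub_rep, TT_sub h _ (by rw [length_rep]; exact ⟨j * k * u.length, by ring⟩),
      TT_sub h _ (by rw [length_rep]; exact ⟨k * v'.length, by ring⟩)]
    have e1 : (rep (3 * j * k) u).length = (rep (3 * k) v').length := by
      rw [length_rep, length_rep, hlen]; ring
    rw [e1]
    have h2 := mul_le_mul_of_nonneg_left (hk k)
      (pow_pos hρ (rep (3 * k) v').length).le
    calc _ = _ := by ring
      _ ≤ _ := h2

/-! ### gaps -/

/-- The word `b a^(n₁) b a^(n₂) ⋯`. -/
def gaps : List ℕ → List Bool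
  | [] => []
  | n :: ds => true :: (List.replicate n false ++ gaps ds)

theorem gaps_append (ds ds' : List ℕ) : gaps (ds ++ ds') = gaps ds ++ gaps ds' := by
  induction ds with
  | nil => rfl
  | cons n ds ih => simp [gaps, ih]

theorem exists_gaps (w : List Bool) : ∃ (i : ℕ) (ds : List ℕ), w = List.replicate i false ++ gaps ds := by
  induction w with
  | nil => exact ⟨0, [], rfl⟩
  | cons c w ih =>
    obtain ⟨i, ds, rfl⟩ := ih
    cases c
    · exact ⟨i + 1, ds, by simp [List.replicate_succ]⟩
    · exact ⟨0, i :: ds, by simp [gaps]⟩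

/-- every word is a power of `a` or a rotation of a gap word -/
theorem exists_gaps_rot (w : List Bool) :
    (∃ m, w = List.replicate m false) ∨
      ∃ (x y : List Bool) (ds : List ℕ), w = x ++ y ∧ ds ≠ [] ∧ y ++ x = gaps ds := by
  obtain ⟨i, ds, rfl⟩ := exists_gaps w
  rcases List.eq_nil_or_concat ds with rfl | ⟨ds', n, rfl⟩
  · exact Or.inl ⟨i, by simp [gaps]⟩
  · refine Or.inr ⟨List.replicate i false, _, ds' ++ [n + i], rfl, by simp, ?_⟩
    rw [List.concat_eq_append, gaps_append, gaps_append]
    simp [gaps]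

/-- gap words with all gaps one or three are images of the substitution -/
theorem gaps_eq_sub (ds : List ℕ) (h : ∀ n ∈ ds, n = 1 ∨ n = 3) :
    ∃ u, gaps ds = sub u := by
  induction ds with
  | nil => exact ⟨[], rfl⟩
  | cons n ds ih =>
    obtain ⟨u, hu⟩ := ih (fun k hk => h k (List.mem_cons_of_mem _ hk))
    rcases h n List.mem_cons_self with rfl | rfl
    · exact ⟨false :: u, by simp [gaps, sub, hu]⟩
    · exact ⟨false :: true :: u, by simp [gaps, sub, hu, List.replicate_succ]⟩

theorem imp_gaps (h : Om e p f q) (ds : List ℕ) (hds : ds ≠ [])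
    (hbad : ∃ n ∈ ds, n ≠ 1 ∧ n ≠ 3) : Imp (TT e p f q) (gaps ds) := by
  by_cases h0 : ∃ n ∈ ds, n = 0 ∨ n = 2
  · obtain ⟨n, hn, hn'⟩ := h0
    obtain ⟨s, t, rfl⟩ := List.append_of_mem hn
    rw [gaps_append]
    refine Imp.rot ?_
    rw [← gaps_append]
    refine Imp.of_rep (m := 2) (by norm_num) ?_
    rw [rep_succ, rep_one, ← gaps_append]
    rcases hn' with rfl | rfl
    · have e1 : gaps ((0 :: t ++ s) ++ (0 :: t ++ s)) =
          true :: gaps ((t ++ s) ++ (0 :: t ++ s)) := by simp [gaps]
      rw [e1]
      rcases hts : t ++ s with _ | ⟨k, r⟩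
      · exact case_bb h _
      · exact case_bb h _
    · have e1 : gaps ((2 :: t ++ s) ++ (2 :: t ++ s)) =
          true :: false :: false :: gaps ((t ++ s) ++ (2 :: t ++ s)) := by
        simp [gaps, List.replicate_succ]
      rw [e1]
      rcases hts : t ++ s with _ | ⟨k, r⟩
      · exact case_baab h _
      · exact case_baab h _
  · push Not at h0
    obtain ⟨n, hn, hn1, hn3⟩ := hbad
    have hn4 : 4 ≤ n := by
      have := h0 n hn
      omega
    obtain ⟨s, t, rfl⟩ := List.append_of_mem hn
    have e1 : gaps (s ++ n :: t) = (gaps s ++ gaps [n]) ++ gaps t := by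
      rw [← gaps_append, ← gaps_append]; simp
    rw [e1]
    refine Imp.rot ?_
    have e2 : gaps t ++ (gaps s ++ gaps [n]) =
        (gaps (t ++ s) ++ [true]) ++ List.replicate n false := by
      rw [gaps_append]; simp [gaps]
    rw [e2]
    refine case_gap h n hn4 _ ?_
    rcases List.eq_nil_or_concat (t ++ s) with hts | ⟨r, k, hts⟩
    · left; rw [hts]; rfl
    · right
      have hk : k ∈ s ++ n :: t := by
        have : k ∈ t ++ s := by rw [hts]; simp
        rw [List.mem_append] at this
        rcases this with h1 | h1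
        · simp [h1]
        · simp [h1]
      have hk0 := (h0 k hk).1
      obtain ⟨k', rfl⟩ := Nat.exists_eq_succ_of_ne_zero hk0
      refine ⟨gaps r ++ true :: List.replicate k' false, ?_⟩
      rw [hts, List.concat_eq_append, gaps_append]
      simp [gaps, List.replicate_succ']

/-- **Every periodic word can be improved.** -/
theorem imp_TT (h : Om e p f q) (v : List Bool) (hv : v ≠ []) : Imp (TT e p f q) v := by
  induction hn : v.length using Nat.strong_induction_on generalizing v e p f q with
  | _ n ih =>
    rcases exists_gaps_rot v with ⟨m, rfl⟩ | ⟨x, y, ds, rfl, hds, hxy⟩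
    · refine case_A h m (Nat.pos_of_ne_zero ?_)
      rintro rfl
      exact hv rfl
    · refine Imp.rot ?_
      rw [hxy]
      by_cases hbad : ∃ n ∈ ds, n ≠ 1 ∧ n ≠ 3
      · exact imp_gaps h ds hds hbad
      · push Not at hbad
        obtain ⟨u, hu⟩ := gaps_eq_sub ds (fun n hn => by
          by_cases h1 : n = 1
          · exact Or.inl h1
          · exact Or.inr (hbad n hn h1))
        rw [hu]
        refine Imp.sub h ?_
        have hlen : n = 2 * u.length := by
          rw [← hn, ← length_sub, ← hu, ← hxy]
          simp only [List.length_append]; ring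
        have hu0 : u ≠ [] := by
          rintro rfl
          rw [List.length_nil, Nat.mul_zero] at hlen
          rw [hlen] at hn
          exact hv (List.length_eq_zero_iff.1 hn)
        have : 0 < u.length := List.length_pos_iff.2 hu0
        exact ih u.length (by omega) h.ren u hu0 rfl

end Pool.Agent.MP9a50b7.NoFP
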