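import Pool.Agent.Lib.MP_9a50b7_lc.NoFP.Defs
import Mathlib.LinearAlgebra.Matrix.NonsingularInverse

/-!
# Renormalisation of the cocycle
-/

set_option autoImplicit false

namespace Pool.Agent.MP9a50b7.NoFP

variable {ε p e f q : ℝ}

/-- Bounds for the parameter. -/
theorem Good.ren_p_bounds (h : Good ε p) :
    ε ^ 2 ≤ 1 / 1000000 ∧ 0 < ε ^ 2 ∧ 99009 / 100000 ≤ p ∧ p ≤ 101 / 100 := by
  obtain ⟨h0, h1, h2, h3⟩ := h
  have hε2 : ε ^ 2 ≤ 1 / 1000000 := by nlinarith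
  have hε0 : 0 < ε ^ 2 := by positivity
  refine ⟨hε2, hε0, by linarith, ?_⟩
  have hp : 0 < p := by linarith
  nlinarith [mul_pos hp hε0]

/-- The quadratic equation and bounds for the renormalisation factor. -/
theorem Good.ren_R_facts (h : Good ε p) :
    R ε p ^ 2 - (p + ε ^ 2 * (1 - p)) * R ε p + ε ^ 2 = 0 ∧ 99 / 100 ≤ R ε p ∧
      R ε p ≤ 10101 / 10000 := by
  obtain ⟨hε2, hε0, hp1, hp2⟩ := h.ren_p_bounds
  have hS1 : 99008 / 100000 ≤ p + ε ^ 2 * (1 - p) := by nlinarith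
  have hS2 : p + ε ^ 2 * (1 - p) ≤ 10101 / 10000 := by nlinarith
  unfold R
  set S : ℝ := p + ε ^ 2 * (1 - p) with hS
  have hdisc : 0 ≤ S ^ 2 - 4 * ε ^ 2 := by nlinarith
  set d : ℝ := √(S ^ 2 - 4 * ε ^ 2) with hd
  have hd2 : d ^ 2 = S ^ 2 - 4 * ε ^ 2 := Real.sq_sqrt hdisc
  have hd0 : 0 ≤ d := Real.sqrt_nonneg _
  have hdS : d ≤ S := by
    apply Real.sqrt_le_iff.2
    exact ⟨by linarith, by linarith⟩
  have hdS' : S - 1 / 10000 ≤ d := by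
    apply Real.le_sqrt_of_sq_le
    nlinarith
  refine ⟨?_, by linarith, by linarith⟩
  nlinarith [hd2]

theorem Good.R_pos (h : Good ε p) : 0 < R ε p := by
  have := h.ren_R_facts
  linarith [this.2.1]

theorem Good.ren_p_eq (h : Good ε p) :
    p = (R ε p ^ 2 + ε ^ 2 - ε ^ 2 * R ε p) / (R ε p * (1 - ε ^ 2)) := by
  obtain ⟨hε2, hε0, hp1, hp2⟩ := h.ren_p_bounds
  obtain ⟨hq, hr1, hr2⟩ := h.ren_R_facts
  have h1 : (0 : ℝ) < 1 - ε ^ 2 := by linarith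
  have h2 : 0 < R ε p * (1 - ε ^ 2) := mul_pos h.R_pos h1
  rw [eq_div_iff h2.ne']
  linear_combination -hq

theorem Good.ren_prp (h : Good ε p) :
    ∃ u v : ℝ, p * rp ε p = (1 + u) * (1 + v) ∧ 95 / 100 * ε ^ 2 ≤ u ∧ u ≤ 105 / 100 * ε ^ 2 ∧
      95 / 100 * ε ^ 2 ≤ v ∧ v ≤ 105 / 100 * ε ^ 2 := by
  obtain ⟨hε2, hε0, hp1, hp2⟩ := h.ren_p_bounds
  obtain ⟨hq, hr1, hr2⟩ := h.ren_R_facts
  have hpe := h.ren_p_eq
  unfold rp
  set r : ℝ := R ε p with hr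
  have hr0 : 0 < r := by linarith
  have h1 : (0 : ℝ) < 1 - ε ^ 2 := by linarith
  have h2 : (0 : ℝ) < r ^ 2 - ε ^ 2 := by nlinarith
  have hrr1 : 98 / 100 ≤ r ^ 2 := by nlinarith
  have hrr2 : r ^ 2 ≤ 103 / 100 := by nlinarith
  have hb1 : 0 < r ^ 2 * (1 - ε ^ 2) := by positivity
  refine ⟨ε ^ 2 * (r ^ 2 - r + 1) / (r ^ 2 * (1 - ε ^ 2)), ε ^ 2 * (r ^ 2 - r + 1) / (r ^ 2 - ε ^ 2),
    ?_, ?_, ?_, ?_, ?_⟩
  · rw [hpe]
    field_simp
    ring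
  · rw [le_div_iff₀ hb1]
    have : 95 / 100 * (r ^ 2 * (1 - ε ^ 2)) ≤ r ^ 2 - r + 1 := by nlinarith
    calc 95 / 100 * ε ^ 2 * (r ^ 2 * (1 - ε ^ 2)) = ε ^ 2 * (95 / 100 * (r ^ 2 * (1 - ε ^ 2))) := by
          ring
      _ ≤ ε ^ 2 * (r ^ 2 - r + 1) := mul_le_mul_of_nonneg_left this hε0.le
  · rw [div_le_iff₀ hb1]
    have : r ^ 2 - r + 1 ≤ 105 / 100 * (r ^ 2 * (1 - ε ^ 2)) := by nlinarith
    calc ε ^ 2 * (r ^ 2 - r + 1) ≤ ε ^ 2 * (105 / 100 * (r ^ 2 * (1 - ε ^ 2))) :=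
          mul_le_mul_of_nonneg_left this hε0.le
      _ = _ := by ring
  · rw [le_div_iff₀ h2]
    have : 95 / 100 * (r ^ 2 - ε ^ 2) ≤ r ^ 2 - r + 1 := by nlinarith
    calc 95 / 100 * ε ^ 2 * (r ^ 2 - ε ^ 2) = ε ^ 2 * (95 / 100 * (r ^ 2 - ε ^ 2)) := by ring
      _ ≤ ε ^ 2 * (r ^ 2 - r + 1) := mul_le_mul_of_nonneg_left this hε0.le
  · rw [div_le_iff₀ h2]
    have : r ^ 2 - r + 1 ≤ 105 / 100 * (r ^ 2 - ε ^ 2) := by nlinarith
    calc ε ^ 2 * (r ^ 2 - r + 1) ≤ ε ^ 2 * (105 / 100 * (r ^ 2 - ε ^ 2)) :=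
          mul_le_mul_of_nonneg_left this hε0.le
      _ = _ := by ring

theorem Good.prp_ge (h : Good ε p) : 1 + 19 / 10 * ε ^ 2 ≤ p * rp ε p := by
  obtain ⟨hε2, hε0, _, _⟩ := h.ren_p_bounds
  obtain ⟨u, v, he, hu1, hu2, hv1, hv2⟩ := h.ren_prp
  rw [he]
  have hu0 : 0 ≤ u := by linarith
  have hv0 : 0 ≤ v := by linarith
  nlinarith [mul_nonneg hu0 hv0]

theorem Good.prp_le (h : Good ε p) : p * rp ε p ≤ 1 + 22 / 10 * ε ^ 2 := by
  obtain ⟨hε2, hε0, _, _⟩ := h.ren_p_bounds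
  obtain ⟨u, v, he, hu1, hu2, hv1, hv2⟩ := h.ren_prp
  rw [he]
  have hu0 : 0 ≤ u := by linarith
  have hv0 : 0 ≤ v := by linarith
  have hv3 : v ≤ 2 / 1000000 := by linarith
  have : u * v ≤ u * (2 / 1000000) := mul_le_mul_of_nonneg_left hv3 hu0
  nlinarith

theorem Good.re_ge (h : Good ε p) : 95 / 100 * ε ^ 2 ≤ re ε p := by
  obtain ⟨hε2, hε0, _, _⟩ := h.ren_p_bounds
  obtain ⟨hq, hr1, hr2⟩ := h.ren_R_facts
  have h2 : (0 : ℝ) < R ε p ^ 2 := pow_pos h.R_pos 2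
  unfold re
  rw [le_div_iff₀ h2]
  have : 95 / 100 * R ε p ^ 2 ≤ 1 := by nlinarith
  nlinarith

theorem Good.re_le (h : Good ε p) : re ε p ≤ 105 / 100 * ε ^ 2 := by
  obtain ⟨hε2, hε0, _, _⟩ := h.ren_p_bounds
  obtain ⟨hq, hr1, hr2⟩ := h.ren_R_facts
  have h2 : (0 : ℝ) < R ε p ^ 2 := pow_pos h.R_pos 2
  unfold re
  rw [div_le_iff₀ h2]
  have : 1 ≤ 105 / 100 * R ε p ^ 2 := by nlinarith
  nlinarith

theorem Good.ren (h : Good ε p) : Good (re ε p) (rp ε p) := by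
  obtain ⟨hε2, hε0, hp1, hp2⟩ := h.ren_p_bounds
  have hge := h.prp_ge
  have hle := h.prp_le
  have rge := h.re_ge
  have rle := h.re_le
  obtain ⟨h0, h1, h2, h3⟩ := h
  set a : ℝ := re ε p with ha
  set b : ℝ := rp ε p with hb
  have ha0 : 0 < a := by linarith
  have ha1 : a ≤ 2 / 1000000 := by linarith
  have ha2 : a ^ 2 ≤ 3 / 1000000 * ε ^ 2 := by
    have : a ^ 2 ≤ a * (2 / 1000000) := by nlinarith
    nlinarith
  have hp0 : 0 < p := by linarith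
  have hb0 : 0 < b := by
    by_contra hneg
    push Not at hneg
    have : p * b ≤ 0 := mul_nonpos_of_nonneg_of_nonpos hp0.le hneg
    linarith
  refine ⟨ha0, by linarith, ?_, ?_⟩
  · -- `b (1 + 4 a²) (1 + 4 ε²) ≤ (101/100) p b (1 + 4 a²)`
    have e1 : b * (1 + 4 * a ^ 2) * (1 + 4 * ε ^ 2) ≤ 101 / 100 * (p * b) * (1 + 4 * a ^ 2) := by
      have : 0 ≤ b * (1 + 4 * a ^ 2) := by positivity
      nlinarith
    have e2 : 101 / 100 * (p * b) * (1 + 4 * a ^ 2) ≤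
        101 / 100 * (1 + 22 / 10 * ε ^ 2) * (1 + 4 * a ^ 2) := by
      have : (0 : ℝ) ≤ 1 + 4 * a ^ 2 := by positivity
      nlinarith
    have e3 : 101 / 100 * (1 + 22 / 10 * ε ^ 2) * (1 + 4 * a ^ 2) ≤
        101 / 100 * (1 + 4 * ε ^ 2) := by
      nlinarith
    have e4 : (0 : ℝ) < 1 + 4 * ε ^ 2 := by positivity
    have e5 : b * (1 + 4 * a ^ 2) * (1 + 4 * ε ^ 2) ≤ 101 / 100 * (1 + 4 * ε ^ 2) := by linarith
    exact le_of_mul_le_mul_right e5 e4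
  · -- `p (1 + 4 ε²) ≤ 101/100`
    have e1 : (1 + 19 / 10 * ε ^ 2) * (1 + 4 * ε ^ 2) ≤ p * b * (1 + 4 * ε ^ 2) := by
      have : (0 : ℝ) ≤ 1 + 4 * ε ^ 2 := by positivity
      nlinarith
    have e2 : p * b * (1 + 4 * ε ^ 2) ≤ 101 / 100 * b := by nlinarith
    nlinarith

theorem Om.ren (h : Om e p f q) : Om (re e p) (rp e p) (re f q) (rp f q) := by
  have h1 := h.ge.re_ge
  have h2 := h.ge.re_le
  have h3 := h.gf.re_ge
  have h4 := h.gf.re_le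
  have he := h.ge.pos
  have hf := h.gf.pos
  have he2 : 0 < e ^ 2 := by positivity
  have hlo := h.lo
  have hhi := h.hi
  refine ⟨h.ge.ren, h.gf.ren, ?_, ?_⟩
  · have a1 : re e p ^ 2 ≤ (105 / 100 * e ^ 2) ^ 2 := by
      have : 0 ≤ re e p := by linarith
      exact pow_le_pow_left₀ this h2 2
    have a2 : (100 * e ^ 2) ^ 2 ≤ f ^ 2 := pow_le_pow_left₀ (by positivity) hlo 2
    nlinarith
  · have a1 : f ^ 2 ≤ (e / 100) ^ 2 := pow_le_pow_left₀ hf.le hhi 2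
    nlinarith

/-- The intertwiner. -/
noncomputable def renN (ε r : ℝ) : Matrix (Fin 2) (Fin 2) ℝ :=
  !![ε, ε * r * (r ^ 2 - ε ^ 2) / (r ^ 2 - ε ^ 2 * r + ε ^ 4);
    -(ε ^ 2 * (r ^ 2 - r + 1)) / (r * (1 - ε ^ 2)), -(r ^ 2 - ε ^ 2) / (1 - ε ^ 2)]

theorem ren_q0_pos {ε r : ℝ} (hε : 0 < ε) : 0 < r ^ 2 - ε ^ 2 * r + ε ^ 4 := by
  have h : 0 < ε ^ 4 := by positivity
  nlinarith [sq_nonneg (r - ε ^ 2 / 2)]

theorem renN_det {ε r : ℝ} (hε : 0 < ε) (hr : 0 < r) (h1 : 0 < 1 - ε ^ 2) :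
    (renN ε r).det = -(ε * (r ^ 2 - ε ^ 2) ^ 2 / (r ^ 2 - ε ^ 2 * r + ε ^ 4)) := by
  have hq := (ren_q0_pos (r := r) hε).ne'
  rw [renN, Matrix.det_fin_two_of]
  obtain ⟨Q, hQ⟩ : ∃ Q, Q = r ^ 2 - ε ^ 2 * r + ε ^ 4 := ⟨_, rfl⟩
  rw [← hQ] at hq ⊢
  have h1' := h1.ne'
  field_simp
  rw [hQ]
  ring

theorem ren_intertwine (h : Good ε p) (x : Bool) :
    (M ε p (!x) * M ε p false) * renN ε (R ε p) =
      R ε p • (renN ε (R ε p) * M (re ε p) (rp ε p) x) := by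
  obtain ⟨hε2, hε0, hp1, hp2⟩ := h.ren_p_bounds
  obtain ⟨hqq, hr1, hr2⟩ := h.ren_R_facts
  have hpe := h.ren_p_eq
  have hpos := h.pos
  unfold re rp
  set r : ℝ := R ε p with hr
  have hr0 : 0 < r := by linarith
  have h1 : (1 : ℝ) - ε ^ 2 ≠ 0 := by
    have : (0 : ℝ) < 1 - ε ^ 2 := by linarith
    exact this.ne'
  have h2 : r ^ 2 - ε ^ 2 ≠ 0 := by
    have : (0 : ℝ) < r ^ 2 - ε ^ 2 := by nlinarith
    exact this.ne'
  have h3 := (ren_q0_pos (r := r) hpos).ne'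
  unfold renN
  obtain ⟨Q, hQ⟩ : ∃ Q, Q = r ^ 2 - ε ^ 2 * r + ε ^ 4 := ⟨_, rfl⟩
  rw [← hQ] at h3 ⊢
  cases x
  · simp only [Bool.not_false, M]
    ext i j
    fin_cases i <;> fin_cases j <;>
      simp [Matrix.mul_apply, Fin.sum_univ_two] <;>
      rw [hpe] <;> field_simp <;> (try rw [hQ]) <;> ring
  · simp only [Bool.not_true, M]
    ext i j
    fin_cases i <;> fin_cases j <;>
      simp [Matrix.mul_apply, Fin.sum_univ_two] <;>
      field_simp <;> (try rw [hQ]) <;> ring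

theorem ren_P_sub (h : Good ε p) (w : List Bool) :
    P ε p (sub w) * renN ε (R ε p) =
      R ε p ^ w.length • (renN ε (R ε p) * P (re ε p) (rp ε p) w) := by
  induction w with
  | nil => simp [P, sub]
  | cons x u ih =>
    have e1 : P ε p (sub (x :: u)) = (M ε p (!x) * M ε p false) * P ε p (sub u) := by
      simp [P, sub, Matrix.mul_assoc]
    have e2 : P (re ε p) (rp ε p) (x :: u) = M (re ε p) (rp ε p) x * P (re ε p) (rp ε p) u := by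
      simp [P]
    rw [e1, Matrix.mul_assoc, ih, e2, Matrix.mul_smul, ← Matrix.mul_assoc, ren_intertwine h x,
      Matrix.smul_mul, smul_smul, Matrix.mul_assoc, List.length_cons, pow_succ]

theorem T_sub (h : Good ε p) (w : List Bool) :
    T ε p (sub w) = R ε p ^ w.length * T (re ε p) (rp ε p) w := by
  obtain ⟨hε2, hε0, hp1, hp2⟩ := h.ren_p_bounds
  obtain ⟨hqq, hr1, hr2⟩ := h.ren_R_facts
  have h1 : (0 : ℝ) < 1 - ε ^ 2 := by linarith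
  have h2 : (0 : ℝ) < R ε p ^ 2 - ε ^ 2 := by nlinarith
  have h3 := ren_q0_pos (r := R ε p) h.pos
  have hdet : IsUnit (renN ε (R ε p)).det := by
    rw [renN_det h.pos h.R_pos h1, isUnit_iff_ne_zero, neg_ne_zero]
    have := h.pos
    positivity
  have hinv := Matrix.mul_nonsing_inv _ hdet
  unfold T
  calc (P ε p (sub w)).trace
      = (P ε p (sub w) * renN ε (R ε p) * (renN ε (R ε p))⁻¹).trace := by
        rw [Matrix.mul_assoc, hinv, Matrix.mul_one]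
    _ = R ε p ^ w.length * ((renN ε (R ε p) * P (re ε p) (rp ε p) w) *
          (renN ε (R ε p))⁻¹).trace := by
        rw [ren_P_sub h w, Matrix.smul_mul, Matrix.trace_smul, smul_eq_mul]
    _ = R ε p ^ w.length * (P (re ε p) (rp ε p) w).trace := by
        rw [Matrix.mul_assoc, Matrix.trace_mul_comm, Matrix.mul_assoc,
          Matrix.nonsing_inv_mul _ hdet, Matrix.mul_one]

end Pool.Agent.MP9a50b7.NoFP
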