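import Pool.Agent.Lib.MP_9a50b7_lc.NoFP.Ent
import Pool.Agent.Lib.MP_9a50b7_lc.NoFP.Ren

/-!
# Decimation by three
-/

set_option autoImplicit false

namespace Pool.Agent.MP9a50b7.NoFP

variable {ε p : ℝ}

/-- decimation of a concatenation -/
theorem dec_append (x y : List Bool) :
    (x.length % 3 = 0 → dec (x ++ y) =
      ((dec x).1 ++ (dec y).1, (dec x).2.1 ++ (dec y).2.1, (dec x).2.2 ++ (dec y).2.2)) ∧
    (x.length % 3 = 1 → dec (x ++ y) =
      ((dec x).1 ++ (dec y).2.2, (dec x).2.1 ++ (dec y).1, (dec x).2.2 ++ (dec y).2.1)) ∧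
    (x.length % 3 = 2 → dec (x ++ y) =
      ((dec x).1 ++ (dec y).2.1, (dec x).2.1 ++ (dec y).2.2, (dec x).2.2 ++ (dec y).1)) := by
  induction x with
  | nil => simp [dec]
  | cons c x ih =>
    obtain ⟨h0, h1, h2⟩ := ih
    refine ⟨fun h => ?_, fun h => ?_, fun h => ?_⟩
    · have hx : x.length % 3 = 2 := by
        rw [List.length_cons] at h
        omega
      rw [List.cons_append, dec, h2 hx]
      simp [dec]
    · have hx : x.length % 3 = 0 := by
        rw [List.length_cons] at h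
        omega
      rw [List.cons_append, dec, h0 hx]
      simp [dec]
    · have hx : x.length % 3 = 1 := by
        rw [List.length_cons] at h
        omega
      rw [List.cons_append, dec, h1 hx]
      simp [dec]

theorem dec_length (w : List Bool) :
    (dec w).1.length + ((dec w).2.1.length + (dec w).2.2.length) = w.length := by
  induction w with
  | nil => rfl
  | cons x w ih =>
    simp only [dec, List.length_cons]
    omega

theorem dec_three (x y z : Bool) (w : List Bool) :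
    dec (x :: y :: z :: w) = (x :: (dec w).1, y :: (dec w).2.1, z :: (dec w).2.2) := rfl

/-- the junction inequality -/
def Jn (ε p D : ℝ) (u v : List Bool) : Prop := D * (g ε p u * g ε p v) ≤ g ε p (u ++ v)

theorem Jn_three (h : Good ε p) {D : ℝ} (hD : 0 ≤ D) {u0 u1 u2 v0 v1 v2 : List Bool}
    (h0 : Jn ε p D u0 v0) (h1 : Jn ε p D u1 v1) (h2 : Jn ε p D u2 v2) :
    D ^ 3 * ((g ε p u0 * (g ε p u1 * g ε p u2)) * (g ε p v0 * (g ε p v1 * g ε p v2))) ≤
      g ε p (u0 ++ v0) * (g ε p (u1 ++ v1) * g ε p (u2 ++ v2)) := by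
  have e0 : 0 ≤ D * (g ε p u0 * g ε p v0) :=
    mul_nonneg hD (mul_pos (g_pos h _) (g_pos h _)).le
  have e1 : 0 ≤ D * (g ε p u1 * g ε p v1) :=
    mul_nonneg hD (mul_pos (g_pos h _) (g_pos h _)).le
  have e2 : 0 ≤ D * (g ε p u2 * g ε p v2) :=
    mul_nonneg hD (mul_pos (g_pos h _) (g_pos h _)).le
  calc D ^ 3 * ((g ε p u0 * (g ε p u1 * g ε p u2)) * (g ε p v0 * (g ε p v1 * g ε p v2)))
      = (D * (g ε p u0 * g ε p v0)) * ((D * (g ε p u1 * g ε p v1)) *
          (D * (g ε p u2 * g ε p v2))) := by ring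
    _ ≤ g ε p (u0 ++ v0) * (g ε p (u1 ++ v1) * g ε p (u2 ++ v2)) := by
      refine mul_le_mul h0 (mul_le_mul h1 h2 e2 (e1.trans h1)) (mul_nonneg e1 e2) (e0.trans h0)

/-- the class pairs at a junction -/
theorem g3_ge_of (h : Good ε p) {D : ℝ} (hD : 0 ≤ D) (x y : List Bool)
    (H0 : x.length % 3 = 0 → Jn ε p D (dec x).1 (dec y).1 ∧ Jn ε p D (dec x).2.1 (dec y).2.1 ∧
      Jn ε p D (dec x).2.2 (dec y).2.2)
    (H1 : x.length % 3 = 1 → Jn ε p D (dec x).1 (dec y).2.2 ∧ Jn ε p D (dec x).2.1 (dec y).1 ∧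
      Jn ε p D (dec x).2.2 (dec y).2.1)
    (H2 : x.length % 3 = 2 → Jn ε p D (dec x).1 (dec y).2.1 ∧ Jn ε p D (dec x).2.1 (dec y).2.2 ∧
      Jn ε p D (dec x).2.2 (dec y).1) :
    D ^ 3 * (g3 ε p x * g3 ε p y) ≤ g3 ε p (x ++ y) := by
  obtain ⟨d0, d1, d2⟩ := dec_append x y
  have hcase : x.length % 3 = 0 ∨ x.length % 3 = 1 ∨ x.length % 3 = 2 := by omega
  rcases hcase with hx | hx | hx
  · obtain ⟨a, b, c⟩ := H0 hx
    rw [g3, g3, g3, d0 hx]
    exact Jn_three h hD a b c
  · obtain ⟨a, b, c⟩ := H1 hx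
    rw [g3, g3, g3, d1 hx]
    refine le_trans (le_of_eq ?_) (Jn_three h hD a b c)
    ring
  · obtain ⟨a, b, c⟩ := H2 hx
    rw [g3, g3, g3, d2 hx]
    refine le_trans (le_of_eq ?_) (Jn_three h hD a b c)
    ring

theorem g3_ge_all (h : Good ε p) {D : ℝ} (hD : 0 ≤ D) (x y : List Bool)
    (H : ∀ u v, (u = (dec x).1 ∨ u = (dec x).2.1 ∨ u = (dec x).2.2) →
      (v = (dec y).1 ∨ v = (dec y).2.1 ∨ v = (dec y).2.2) → Jn ε p D u v) :
    D ^ 3 * (g3 ε p x * g3 ε p y) ≤ g3 ε p (x ++ y) := by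
  refine g3_ge_of h hD x y (fun _ => ⟨?_, ?_, ?_⟩) (fun _ => ⟨?_, ?_, ?_⟩)
    (fun _ => ⟨?_, ?_, ?_⟩) <;> exact H _ _ (by simp) (by simp)

theorem g3_nil (ε p : ℝ) : g3 ε p [] = 1 := by simp [g3, dec, g_nil]

theorem g3_pos (h : Good ε p) (w : List Bool) : 0 < g3 ε p w :=
  mul_pos (g_pos h _) (mul_pos (g_pos h _) (g_pos h _))

theorem T3_ge (h : Good ε p) (w : List Bool) : (9 / 10) ^ 3 * g3 ε p w ≤ T3 ε p w := by
  have hp : ∀ u, 0 ≤ 9 / 10 * g ε p u := fun u => by linarith [g_pos h u]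
  have h0 := T_ge h (dec w).1
  have h1 := T_ge h (dec w).2.1
  have h2 := T_ge h (dec w).2.2
  rw [g3, T3]
  calc (9 / 10) ^ 3 * (g ε p (dec w).1 * (g ε p (dec w).2.1 * g ε p (dec w).2.2))
      = (9 / 10 * g ε p (dec w).1) * ((9 / 10 * g ε p (dec w).2.1) *
          (9 / 10 * g ε p (dec w).2.2)) := by ring
    _ ≤ _ := mul_le_mul h0 (mul_le_mul h1 h2 (hp _) ((hp _).trans h1))
        (mul_nonneg (hp _) (hp _)) ((hp _).trans h0)

theorem T3_le (h : Good ε p) (w : List Bool) : T3 ε p w ≤ 2 ^ 3 * g3 ε p w := by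
  have hp : ∀ u, 0 ≤ g ε p u := fun u => (g_pos h u).le
  have hT : ∀ u, 0 ≤ T ε p u := fun u => by linarith [g_pos h u, T_ge h u]
  have h0 := T_le h (dec w).1
  have h1 := T_le h (dec w).2.1
  have h2 := T_le h (dec w).2.2
  rw [g3, T3]
  calc T ε p (dec w).1 * (T ε p (dec w).2.1 * T ε p (dec w).2.2)
      ≤ (2 * g ε p (dec w).1) * ((2 * g ε p (dec w).2.1) * (2 * g ε p (dec w).2.2)) :=
        mul_le_mul h0 (mul_le_mul h1 h2 (hT _) (by linarith [hp (dec w).2.1]))
          (mul_nonneg (hT _) (hT _)) (by linarith [hp (dec w).1])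
    _ = _ := by ring

theorem g3_append_le (h : Good ε p) (x y : List Bool) :
    g3 ε p (x ++ y) ≤ g3 ε p x * g3 ε p y := by
  have hp : ∀ u, 0 ≤ g ε p u := fun u => (g_pos h u).le
  have key : ∀ u0 u1 u2 v0 v1 v2 : List Bool,
      g ε p (u0 ++ v0) * (g ε p (u1 ++ v1) * g ε p (u2 ++ v2)) ≤
        (g ε p u0 * g ε p v0) * ((g ε p u1 * g ε p v1) * (g ε p u2 * g ε p v2)) := by
    intro u0 u1 u2 v0 v1 v2
    exact mul_le_mul (g_append_le h _ _) (mul_le_mul (g_append_le h _ _) (g_append_le h _ _)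
      (hp _) (mul_nonneg (hp _) (hp _))) (mul_nonneg (hp _) (hp _)) (mul_nonneg (hp _) (hp _))
  obtain ⟨d0, d1, d2⟩ := dec_append x y
  have hcase : x.length % 3 = 0 ∨ x.length % 3 = 1 ∨ x.length % 3 = 2 := by omega
  rcases hcase with hx | hx | hx
  · rw [g3, g3, g3, d0 hx]
    refine (key _ _ _ _ _ _).trans (le_of_eq ?_)
    ring
  · rw [g3, g3, g3, d1 hx]
    refine (key _ _ _ _ _ _).trans (le_of_eq ?_)
    ring
  · rw [g3, g3, g3, d2 hx]
    refine (key _ _ _ _ _ _).trans (le_of_eq ?_)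
    ring

theorem Dfac_nonneg (h : Good ε p) : 0 ≤ 1 - 11 / 10 * ε ^ 2 := by
  have h1 := h.pos
  have h2 := h.le
  nlinarith

theorem g3_append_ge (h : Good ε p) (x y : List Bool) :
    (1 - 11 / 10 * ε) ^ 3 * (g3 ε p x * g3 ε p y) ≤ g3 ε p (x ++ y) := by
  refine g3_ge_all h ?_ x y fun u v _ _ => g_append_ge h u v
  linarith [h.le]

theorem g3_append_ge_right3 (h : Good ε p) (x y : List Bool) :
    (1 - 11 / 10 * ε ^ 2) ^ 3 * (g3 ε p x * g3 ε p (false :: false :: false :: y)) ≤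
      g3 ε p (x ++ false :: false :: false :: y) := by
  refine g3_ge_all h (Dfac_nonneg h) x _ fun u v _ hv => ?_
  rw [dec_three] at hv
  rcases hv with rfl | rfl | rfl <;> exact g_append_ge_right h _ _

theorem dec_aaa (x : List Bool) : dec (x ++ [false, false, false]) =
    ((dec x).1 ++ [false], (dec x).2.1 ++ [false], (dec x).2.2 ++ [false]) := by
  obtain ⟨d0, d1, d2⟩ := dec_append x [false, false, false]
  have hcase : x.length % 3 = 0 ∨ x.length % 3 = 1 ∨ x.length % 3 = 2 := by omega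
  rcases hcase with hx | hx | hx
  · rw [d0 hx]; rfl
  · rw [d1 hx]; rfl
  · rw [d2 hx]; rfl

theorem g3_append_ge_left3 (h : Good ε p) (x y : List Bool) :
    (1 - 11 / 10 * ε ^ 2) ^ 3 * (g3 ε p (x ++ [false, false, false]) * g3 ε p y) ≤
      g3 ε p ((x ++ [false, false, false]) ++ y) := by
  refine g3_ge_all h (Dfac_nonneg h) _ y fun u v hu _ => ?_
  rw [dec_aaa] at hu
  rcases hu with rfl | rfl | rfl <;> exact g_append_ge_left h _ _

theorem Jn_nil (h : Good ε p) (v : List Bool) : Jn ε p (1 - 11 / 10 * ε ^ 2) [] v := by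
  rw [Jn, g_nil, one_mul, List.nil_append]
  have h1 := g_pos h v
  have h2 : 0 < ε ^ 2 := pow_pos h.pos 2
  nlinarith [mul_pos h2 h1]

theorem g3_append_ge_aba (h : Good ε p) (U y : List Bool)
    (hU : U = [true] ∨ ∃ V, U = V ++ [false, true]) :
    (1 - 11 / 10 * ε ^ 2) ^ 3 * (g3 ε p U * g3 ε p (false :: true :: false :: y)) ≤
      g3 ε p (U ++ false :: true :: false :: y) := by
  rcases hU with rfl | ⟨V, rfl⟩
  · refine g3_ge_of h (Dfac_nonneg h) _ _ (fun hx => ?_) (fun _ => ?_) (fun hx => ?_)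
    · simp at hx
    · rw [dec_three]
      exact ⟨g_append_ge_right h _ _, Jn_nil h _, Jn_nil h _⟩
    · simp at hx
  · obtain ⟨d0, d1, d2⟩ := dec_append V [false, true]
    have hl : (V ++ [false, true]).length = V.length + 2 := by simp
    refine g3_ge_of h (Dfac_nonneg h) _ _ (fun hx => ?_) (fun hx => ?_) (fun hx => ?_)
    · have hV : V.length % 3 = 1 := by omega
      rw [dec_three, d1 hV]
      exact ⟨g_append_ge_right h _ _, g_append_ge_left h _ _, g_append_ge_right h _ _⟩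
    · have hV : V.length % 3 = 2 := by omega
      rw [dec_three, d2 hV]
      exact ⟨g_append_ge_right h _ _, g_append_ge_right h _ _, g_append_ge_left h _ _⟩
    · have hV : V.length % 3 = 0 := by omega
      rw [dec_three, d0 hV]
      exact ⟨g_append_ge_left h _ _, g_append_ge_right h _ _, g_append_ge_right h _ _⟩

theorem g3_false_cons (ε p : ℝ) (w : List Bool) : g3 ε p (false :: w) = g3 ε p w := by
  rw [g3, g3, dec]
  simp only [g_false_cons]
  ring

theorem g3_concat_false (ε p : ℝ) (w : List Bool) : g3 ε p (w ++ [false]) = g3 ε p w := by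
  obtain ⟨d0, d1, d2⟩ := dec_append w [false]
  have hcase : w.length % 3 = 0 ∨ w.length % 3 = 1 ∨ w.length % 3 = 2 := by omega
  rcases hcase with hx | hx | hx
  · rw [g3, g3, d0 hx]
    simp [dec, g_concat_false]
  · rw [g3, g3, d1 hx]
    simp [dec, g_concat_false]
  · rw [g3, g3, d2 hx]
    simp [dec, g_concat_false]

theorem g3_true (ε p : ℝ) : g3 ε p [true] = p := by
  simp [g3, dec, g_nil, g_true]

theorem g3_true_cons_le (h : Good ε p) (w : List Bool) :
    g3 ε p (true :: w) ≤ p * g3 ε p w := by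
  rw [g3, g3, dec]
  have h1 := g_true_cons_le h (dec w).2.2
  have h2 : 0 ≤ g ε p (dec w).1 * g ε p (dec w).2.1 := (mul_pos (g_pos h _) (g_pos h _)).le
  refine (mul_le_mul_of_nonneg_right h1 h2).trans (le_of_eq ?_)
  ring

theorem g3_baab_le (h : Good ε p) (w : List Bool) :
    g3 ε p (true :: false :: false :: true :: w) ≤
      (p - 24 / 25 * ε) * g3 ε p (true :: w) := by
  have e1 : dec (true :: false :: false :: true :: w) =
      (true :: true :: (dec w).2.2, false :: (dec w).1, false :: (dec w).2.1) := rfl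
  have e2 : dec (true :: w) = (true :: (dec w).2.2, (dec w).1, (dec w).2.1) := rfl
  rw [g3, g3, e1, e2]
  simp only [g_false_cons]
  have h1 := g_true_true_le h (dec w).2.2
  have h2 : 0 ≤ g ε p (dec w).1 * g ε p (dec w).2.1 := (mul_pos (g_pos h _) (g_pos h _)).le
  refine (mul_le_mul_of_nonneg_right h1 h2).trans (le_of_eq ?_)
  ring

theorem T3_rot (ε p : ℝ) (x : Bool) (u : List Bool) (hu : 3 ∣ u.length + 1) :
    T3 ε p (u ++ [x]) = T3 ε p (x :: u) := by
  obtain ⟨-, -, d2⟩ := dec_append u [x]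
  have hx : u.length % 3 = 2 := by omega
  have h1 : T ε p ((dec u).2.2 ++ [x]) = T ε p (x :: (dec u).2.2) :=
    T_rot ε p (dec u).2.2 [x]
  rw [T3, T3, d2 hx]
  simp only [dec, List.append_nil]
  rw [h1]
  ring

/-- the rotated substitution -/
def subr : List Bool → List Bool
  | [] => []
  | x :: u => false :: (!x) :: subr u

theorem subr_concat (c : List Bool) : subr c ++ [false] = false :: sub c := by
  induction c with
  | nil => rfl
  | cons z c ih =>
    rw [subr, sub, List.cons_append, List.cons_append, ih]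

theorem T_subr (ε p : ℝ) (c : List Bool) : T ε p (subr c) = T ε p (sub c) := by
  cases c with
  | nil => rfl
  | cons z c =>
    have h1 := subr_concat (z :: c)
    rw [subr, List.cons_append, List.cons_append] at h1
    have h2 : (!z) :: (subr c ++ [false]) = sub (z :: c) := (List.cons.inj h1).2
    rw [subr, ← h2]
    exact T_rot ε p [false] ((!z) :: subr c)

theorem dec_sub (m : ℕ) : ∀ w : List Bool, w.length = 3 * m →
    dec (sub w) = (sub (dec w).1, subr (dec w).2.2, sub (dec w).2.1) := by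
  induction m with
  | zero =>
    intro w hw
    have : w = [] := List.length_eq_zero_iff.1 (by omega)
    subst this
    rfl
  | succ m ih =>
    intro w hw
    match w, hw with
    | [], hw => simp at hw
    | [_], hw => simp at hw; omega
    | [_, _], hw => simp at hw; omega
    | x :: y :: z :: w, hw =>
      have hw' : w.length = 3 * m := by
        simp only [List.length_cons] at hw
        omega
      have h1 := ih w hw'
      have h2 : sub (x :: y :: z :: w) =
          (!x) :: false :: (!y) :: false :: (!z) :: false :: sub w := rfl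
      rw [h2, dec_three, dec_three, h1, dec_three]
      rfl

theorem T3_sub (h : Good ε p) (w : List Bool) (hw : 3 ∣ w.length) :
    T3 ε p (sub w) = R ε p ^ w.length * T3 (re ε p) (rp ε p) w := by
  obtain ⟨m, hm⟩ := hw
  rw [T3, T3, dec_sub m w hm]
  simp only [T_subr, T_sub h]
  rw [← dec_length w, pow_add, pow_add]
  ring

end Pool.Agent.MP9a50b7.NoFP
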