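import Mathlib.Data.Matrix.Mul
import Mathlib.LinearAlgebra.Matrix.Trace
import Mathlib.LinearAlgebra.Matrix.Notation
import Mathlib.Analysis.Real.Sqrt
import Mathlib.Tactic

/-!
# A pair of integer matrices without the finiteness property: definitions

Letters: `false` is `a`, `true` is `b`.
-/

set_option autoImplicit false

namespace Pool.Agent.MP9a50b7.NoFP

/-- The two letters: `a ↦ diag(1, ε)`, `b ↦ diag(1, ε) * [[p, 1], [-(1-p+p²), 1-p]]`.
Both have determinant `ε`. -/
noncomputable def M (ε p : ℝ) : Bool → Matrix (Fin 2) (Fin 2) ℝ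
  | false => !![1, 0; 0, ε]
  | true => !![p, 1; -(ε * (1 - p + p ^ 2)), ε * (1 - p)]

/-- The product of a word. -/
noncomputable def P (ε p : ℝ) (w : List Bool) : Matrix (Fin 2) (Fin 2) ℝ :=
  (w.map (M ε p)).prod

/-- The upper left entry. -/
noncomputable def g (ε p : ℝ) (w : List Bool) : ℝ := P ε p w 0 0

/-- The trace. -/
noncomputable def T (ε p : ℝ) (w : List Bool) : ℝ := (P ε p w).trace

/-- Decimation by three: the subwords of letters at the positions `0, 1, 2` modulo three. -/
def dec : List Bool → List Bool × List Bool × List Bool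
  | [] => ([], [], [])
  | x :: u => (x :: (dec u).2.2, (dec u).1, (dec u).2.1)

/-- The product of `g` over the three decimated words. -/
noncomputable def g3 (ε p : ℝ) (w : List Bool) : ℝ :=
  g ε p (dec w).1 * (g ε p (dec w).2.1 * g ε p (dec w).2.2)

/-- The product of the traces over the three decimated words. -/
noncomputable def T3 (ε p : ℝ) (w : List Bool) : ℝ :=
  T ε p (dec w).1 * (T ε p (dec w).2.1 * T ε p (dec w).2.2)

/-- The substitution `a ↦ ba`, `b ↦ aa`. -/
def sub : List Bool → List Bool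
  | [] => []
  | x :: u => (!x) :: false :: sub u

/-- The `k`-th power of a word. -/
def rep (k : ℕ) (w : List Bool) : List Bool := (List.replicate k w).flatten

/-- The renormalisation factor: the larger root of `R² - S R + ε² = 0`,
`S = p + ε² (1 - p)`. -/
noncomputable def R (ε p : ℝ) : ℝ :=
  ((p + ε ^ 2 * (1 - p)) + √((p + ε ^ 2 * (1 - p)) ^ 2 - 4 * ε ^ 2)) / 2

/-- Renormalised `ε`. -/
noncomputable def re (ε p : ℝ) : ℝ := ε ^ 2 / R ε p ^ 2

/-- Renormalised `p`. -/
noncomputable def rp (ε p : ℝ) : ℝ :=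
  (R ε p * (1 + ε ^ 2) - ε ^ 2) / (R ε p ^ 2 - ε ^ 2)

/-- The parameter region for one cocycle. -/
structure Good (ε p : ℝ) : Prop where
  pos : 0 < ε
  le : ε ≤ 1 / 1000
  up : p * (1 + 4 * ε ^ 2) ≤ 101 / 100
  lo : 1 + 4 * ε ^ 2 ≤ 101 / 100 * p

/-- The parameter region for the pair of cocycles. -/
structure Om (e p f q : ℝ) : Prop where
  ge : Good e p
  gf : Good f q
  lo : 100 * e ^ 2 ≤ f
  hi : f ≤ e / 100

/-- The functional (upper left entries). -/
noncomputable def GG (e p f q : ℝ) (w : List Bool) : ℝ :=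
  (g e p w * g (re e p) (rp e p) w) * (g3 f q w * g3 (re f q) (rp f q) w)

/-- The functional (traces). -/
noncomputable def TT (e p f q : ℝ) (w : List Bool) : ℝ :=
  (T e p w * T (re e p) (rp e p) w) * (T3 f q w * T3 (re f q) (rp f q) w)

/-- The periodic word `v` can be improved for the functional `F`. -/
def Imp (F : List Bool → ℝ) (v : List Bool) : Prop :=
  ∃ (j : ℕ) (v' : List Bool) (c κ : ℝ), 0 < j ∧ v'.length = j * v.length ∧ 1 < c ∧ 0 < κ ∧
    ∀ k : ℕ, κ * c ^ k * F (rep (3 * j * k) v) ≤ F (rep (3 * k) v')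

end Pool.Agent.MP9a50b7.NoFP
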