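import Pool.Agent.Lib.MP_9a50b7_lc.NoFP.Defs

/-!
# Entry estimates for one cocycle
-/

set_option autoImplicit false

namespace Pool.Agent.MP9a50b7.NoFP

variable {ε p : ℝ}

theorem P_nil (ε p : ℝ) : P ε p [] = 1 := by simp [P]
theorem P_cons (ε p : ℝ) (c : Bool) (w : List Bool) : P ε p (c :: w) = M ε p c * P ε p w := by
  simp [P]
theorem P_append (ε p : ℝ) (x y : List Bool) : P ε p (x ++ y) = P ε p x * P ε p y := by
  simp [P]
theorem g_nil (ε p : ℝ) : g ε p [] = 1 := by simp [g, P]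

/-! Entries of products. -/

theorem P_fc (ε p : ℝ) (w : List Bool) (j : Fin 2) :
    P ε p (false :: w) 0 j = P ε p w 0 j ∧ P ε p (false :: w) 1 j = ε * P ε p w 1 j := by
  rw [P_cons]
  constructor <;> simp [M, Matrix.mul_apply, Fin.sum_univ_two]

theorem P_tc (ε p : ℝ) (w : List Bool) (j : Fin 2) :
    P ε p (true :: w) 0 j = p * P ε p w 0 j + P ε p w 1 j ∧
    P ε p (true :: w) 1 j =
      -(ε * (1 - p + p ^ 2)) * P ε p w 0 j + ε * (1 - p) * P ε p w 1 j := by
  rw [P_cons]
  constructor <;> simp [M, Matrix.mul_apply, Fin.sum_univ_two]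

theorem P_cf (ε p : ℝ) (w : List Bool) (i : Fin 2) :
    P ε p (w ++ [false]) i 0 = P ε p w i 0 ∧ P ε p (w ++ [false]) i 1 = ε * P ε p w i 1 := by
  rw [P_append, P_cons, P_nil, mul_one]
  constructor <;> simp [M, Matrix.mul_apply, Fin.sum_univ_two, mul_comm]

theorem P_ct (ε p : ℝ) (w : List Bool) (i : Fin 2) :
    P ε p (w ++ [true]) i 0 = P ε p w i 0 * p - P ε p w i 1 * (ε * (1 - p + p ^ 2)) ∧
    P ε p (w ++ [true]) i 1 = P ε p w i 0 + P ε p w i 1 * (ε * (1 - p)) := by
  rw [P_append, P_cons, P_nil, mul_one]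
  constructor <;> simp [M, Matrix.mul_apply, Fin.sum_univ_two] <;> ring

theorem g_append (ε p : ℝ) (x y : List Bool) :
    g ε p (x ++ y) = g ε p x * g ε p y + P ε p x 0 1 * P ε p y 1 0 := by
  rw [g, P_append]
  simp [g, Matrix.mul_apply, Fin.sum_univ_two]

theorem Good.p_lo (h : Good ε p) : 99 / 100 ≤ p := by nlinarith [h.lo, sq_nonneg ε]
theorem Good.p_hi (h : Good ε p) : p ≤ 101 / 100 := by
  have h1 := h.up
  have h2 := h.p_lo
  nlinarith [sq_nonneg ε, mul_nonneg (by linarith : (0:ℝ) ≤ p) (sq_nonneg ε)]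
theorem Good.k_lo (h : Good ε p) : 99 / 100 ≤ 1 - p + p ^ 2 := by
  nlinarith [h.p_lo, h.p_hi, mul_nonneg (sub_nonneg.2 h.p_lo) (sub_nonneg.2 h.p_lo)]
theorem Good.k_hi (h : Good ε p) : 1 - p + p ^ 2 ≤ 102 / 100 := by
  nlinarith [h.p_lo, h.p_hi, mul_nonneg (sub_nonneg.2 h.p_lo) (sub_nonneg.2 h.p_hi)]

/-- First column. -/
theorem col0 (h : Good ε p) (w : List Bool) :
    0 < P ε p w 0 0 ∧ -(103 / 100 * ε * P ε p w 0 0) ≤ P ε p w 1 0 ∧ P ε p w 1 0 ≤ 0 := by
  have hε := h.pos
  have hε' := h.le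
  have hp := h.p_lo
  have hp' := h.p_hi
  have hk := h.k_lo
  have hk' := h.k_hi
  induction w with
  | nil => rw [P_nil]; simp; linarith
  | cons c w ih =>
    obtain ⟨hA, hC, hC'⟩ := ih
    have hεA : 0 < ε * P ε p w 0 0 := mul_pos hε hA
    have hεA' : ε * P ε p w 0 0 ≤ 1 / 1000 * P ε p w 0 0 := mul_le_mul_of_nonneg_right hε' hA.le
    cases c
    · obtain ⟨e0, e1⟩ := P_fc ε p w 0
      rw [e0, e1]
      refine ⟨hA, ?_, ?_⟩
      · nlinarith
      · nlinarith
    · obtain ⟨e0, e1⟩ := P_tc ε p w 0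
      rw [e0, e1]
      generalize P ε p w 0 0 = A at *
      generalize P ε p w 1 0 = C at *
      have hpA : 99 / 100 * A ≤ p * A := mul_le_mul_of_nonneg_right hp hA.le
      have hkA : 99 / 100 * A ≤ (1 - p + p ^ 2) * A := mul_le_mul_of_nonneg_right hk hA.le
      have hkA' : (1 - p + p ^ 2) * A ≤ 102 / 100 * A := mul_le_mul_of_nonneg_right hk' hA.le
      have hC1 : |(1 - p) * C| ≤ 1 / 100 * (103 / 100 * ε * A) := by
        rw [abs_mul]
        apply mul_le_mul _ _ (abs_nonneg _) (by norm_num)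
        · rw [abs_le]; constructor <;> linarith
        · rw [abs_of_nonpos hC']; linarith
      have hC2 := abs_le.1 hC1
      refine ⟨by nlinarith, ?_, ?_⟩
      · -- `-(103/100 ε (pA + C)) ≤ ε(-κA + (1-p)C)`
        have key : 0 ≤ 103 / 100 * (p * A + C) + (-(1 - p + p ^ 2) * A + (1 - p) * C) := by
          have hq : 102 / 100 * A ≤ (103 / 100 * p - (1 - p + p ^ 2) + 1) * A := by
            apply mul_le_mul_of_nonneg_right _ hA.le
            nlinarith [mul_nonneg (sub_nonneg.2 hp) (sub_nonneg.2 hp')]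
          nlinarith
        have := mul_nonneg hε.le key
        nlinarith
      · have key : -(1 - p + p ^ 2) * A + (1 - p) * C ≤ 0 := by nlinarith
        have := mul_nonneg hε.le (neg_nonneg.2 key)
        nlinarith

/-- First row. -/
theorem row0 (h : Good ε p) (w : List Bool) :
    0 ≤ P ε p w 0 1 ∧ P ε p w 0 1 ≤ 103 / 100 * P ε p w 0 0 := by
  have hε := h.pos
  have hε' := h.le
  have hp := h.p_lo
  have hp' := h.p_hi
  have hk := h.k_lo
  have hk' := h.k_hi
  induction w using List.reverseRecOn with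
  | nil => rw [P_nil]; simp; norm_num
  | append_singleton w c ih =>
    obtain ⟨hB, hB'⟩ := ih
    have hA := (col0 h w).1
    cases c
    · obtain ⟨e0, e1⟩ := P_cf ε p w 0
      rw [e0, e1]
      refine ⟨by positivity, ?_⟩
      nlinarith
    · obtain ⟨e0, e1⟩ := P_ct ε p w 0
      rw [e0, e1]
      generalize P ε p w 0 0 = A at *
      generalize P ε p w 0 1 = B at *
      have hpA : 99 / 100 * A ≤ A * p := by nlinarith
      have hB1 : B * ε ≤ 103 / 100 * A * (1 / 1000) := by
        apply mul_le_mul hB' hε' hε.le (by linarith)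
      have hB0 : 0 ≤ B * ε := mul_nonneg hB hε.le
      have hB2 : B * (ε * (1 - p + p ^ 2)) ≤ 103 / 100 * A * (1 / 1000) * (102 / 100) := by
        rw [← mul_assoc]
        apply mul_le_mul hB1 hk' (by linarith) (by linarith)
      have hB3 : |B * (ε * (1 - p))| ≤ 103 / 100 * A * (1 / 1000) * (1 / 100) := by
        rw [← mul_assoc, abs_mul, abs_of_nonneg hB0]
        apply mul_le_mul hB1 _ (abs_nonneg _) (by linarith)
        rw [abs_le]; constructor <;> linarith
      have hB4 := abs_le.1 hB3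
      constructor <;> linarith

/-- The lower right entry. -/
theorem ent11 (h : Good ε p) (w : List Bool) :
    |P ε p w 1 1| ≤ P ε p w 0 0 ∧ (w ≠ [] → |P ε p w 1 1| ≤ 11 / 10 * ε * P ε p w 0 0) := by
  have hε := h.pos
  have hε' := h.le
  have hp := h.p_lo
  have hp' := h.p_hi
  have hk := h.k_lo
  have hk' := h.k_hi
  induction w with
  | nil => rw [P_nil]; simp
  | cons c w ih =>
    have hE := ih.1
    have key : |P ε p (c :: w) 1 1| ≤ 11 / 10 * ε * P ε p (c :: w) 0 0 := by
      obtain ⟨hA, hC, hC'⟩ := col0 h w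
      obtain ⟨hB, hB'⟩ := row0 h w
      cases c
      · rw [(P_fc ε p w 0).1, (P_fc ε p w 1).2, abs_mul, abs_of_pos hε]
        nlinarith
      · rw [(P_tc ε p w 0).1, (P_tc ε p w 1).2]
        have e : -(ε * (1 - p + p ^ 2)) * P ε p w 0 1 + ε * (1 - p) * P ε p w 1 1 =
          ε * (-((1 - p + p ^ 2) * P ε p w 0 1) + (1 - p) * P ε p w 1 1) := by ring
        rw [e, abs_mul, abs_of_pos hε]
        generalize P ε p w 0 0 = A at *
        generalize P ε p w 0 1 = B at *
        generalize P ε p w 1 0 = C at *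
        generalize P ε p w 1 1 = E at *
        have hC2 : -(103 / 100 * (1 / 1000) * A) ≤ C := by nlinarith
        have hpA : 99 / 100 * A ≤ p * A := mul_le_mul_of_nonneg_right hp hA.le
        have h1 : |(1 - p + p ^ 2) * B| ≤ 102 / 100 * (103 / 100 * A) := by
          rw [abs_mul, abs_of_nonneg hB, abs_of_nonneg (by linarith : 0 ≤ 1 - p + p ^ 2)]
          apply mul_le_mul hk' hB' hB (by norm_num)
        have h2 : |(1 - p) * E| ≤ 1 / 100 * A := by
          rw [abs_mul]
          apply mul_le_mul _ hE (abs_nonneg _) (by norm_num)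
          rw [abs_le]; constructor <;> linarith
        have h3 : |-((1 - p + p ^ 2) * B) + (1 - p) * E| ≤ 11 / 10 * (p * A + C) := by
          calc _ ≤ |-((1 - p + p ^ 2) * B)| + |(1 - p) * E| := abs_add_le _ _
            _ ≤ 102 / 100 * (103 / 100 * A) + 1 / 100 * A := by
              rw [abs_neg]; exact add_le_add h1 h2
            _ ≤ _ := by linarith
        calc _ ≤ ε * (11 / 10 * (p * A + C)) := mul_le_mul_of_nonneg_left h3 hε.le
          _ = _ := by ring
    refine ⟨key.trans ?_, fun _ => key⟩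
    have := (col0 h (c :: w)).1
    nlinarith

theorem g_pos (h : Good ε p) (w : List Bool) : 0 < g ε p w := (col0 h w).1

theorem T_eq (ε p : ℝ) (w : List Bool) : T ε p w = P ε p w 0 0 + P ε p w 1 1 := by
  rw [T, Matrix.trace_fin_two]

theorem T_ge (h : Good ε p) (w : List Bool) : 9 / 10 * g ε p w ≤ T ε p w := by
  rw [T_eq, g]
  have hA := (col0 h w).1
  rcases eq_or_ne w [] with rfl | hw
  · rw [P_nil]; simp; norm_num
  · have h1 := (abs_le.1 ((ent11 h w).2 hw)).1
    have hε' := h.le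
    nlinarith

theorem T_le (h : Good ε p) (w : List Bool) : T ε p w ≤ 2 * g ε p w := by
  rw [T_eq, g]
  have h1 := (abs_le.1 (ent11 h w).1).2
  linarith

theorem P_entry_le (h : Good ε p) (w : List Bool) (i j : Fin 2) :
    |P ε p w i j| ≤ 2 * T ε p w := by
  have hT := T_ge h w
  rw [g] at hT
  obtain ⟨hA, hC, hC'⟩ := col0 h w
  obtain ⟨hB, hB'⟩ := row0 h w
  have hE := (ent11 h w).1
  have hε := h.pos
  have hε' := h.le
  have hC2 : -(103 / 100 * (1 / 1000) * P ε p w 0 0) ≤ P ε p w 1 0 := by nlinarith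
  fin_cases i <;> fin_cases j
  · show |P ε p w 0 0| ≤ _
    rw [abs_of_pos hA]; linarith
  · show |P ε p w 0 1| ≤ _
    rw [abs_of_nonneg hB]; linarith
  · show |P ε p w 1 0| ≤ _
    rw [abs_of_nonpos hC']; linarith
  · show |P ε p w 1 1| ≤ _
    linarith

theorem g_append_le (h : Good ε p) (x y : List Bool) :
    g ε p (x ++ y) ≤ g ε p x * g ε p y := by
  rw [g_append]
  have h1 := (row0 h x).1
  have h2 := (col0 h y).2.2
  nlinarith [mul_nonneg h1 (neg_nonneg.2 h2)]

/-- General lower bound. -/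
theorem g_append_ge_aux (h : Good ε p) (x y : List Bool) {s t : ℝ} (hs : 0 ≤ s) (ht : 0 ≤ t)
    (hB : P ε p x 0 1 ≤ 103 / 100 * s * g ε p x) (hC : -(103 / 100 * t * g ε p y) ≤ P ε p y 1 0) :
    (1 - 11 / 10 * (s * t)) * (g ε p x * g ε p y) ≤ g ε p (x ++ y) := by
  rw [g_append]
  have hx := g_pos h x
  have hy := g_pos h y
  have h1 := (row0 h x).1
  have h3 : P ε p x 0 1 * (-P ε p y 1 0) ≤ (103 / 100 * s * g ε p x) * (103 / 100 * t * g ε p y) := by
    apply mul_le_mul hB (by linarith) _ (by positivity)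
    linarith [(col0 h y).2.2]
  have h4 : 0 ≤ (s * t) * (g ε p x * g ε p y) := by positivity
  nlinarith

theorem g_append_ge (h : Good ε p) (x y : List Bool) :
    (1 - 11 / 10 * ε) * (g ε p x * g ε p y) ≤ g ε p (x ++ y) := by
  have := g_append_ge_aux h x y (s := 1) (t := ε) zero_le_one h.pos.le
    (by have := (row0 h x).2; rw [g]; linarith) (col0 h y).2.1
  simpa using this

theorem g_append_ge_right (h : Good ε p) (x y : List Bool) :
    (1 - 11 / 10 * ε ^ 2) * (g ε p x * g ε p (false :: y)) ≤ g ε p (x ++ false :: y) := by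
  have hε := h.pos
  have := g_append_ge_aux h x (false :: y) (s := 1) (t := ε ^ 2) zero_le_one (by positivity)
    (by have := (row0 h x).2; rw [g]; linarith)
    (by
      rw [g, (P_fc ε p y 0).1, (P_fc ε p y 0).2]
      have := mul_le_mul_of_nonneg_left (col0 h y).2.1 hε.le
      nlinarith)
  simpa using this

theorem g_append_ge_left (h : Good ε p) (x y : List Bool) :
    (1 - 11 / 10 * ε ^ 2) * (g ε p (x ++ [false]) * g ε p y) ≤ g ε p ((x ++ [false]) ++ y) := by
  have hε := h.pos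
  have := g_append_ge_aux h (x ++ [false]) y (s := ε) (t := ε) hε.le hε.le
    (by
      rw [g, (P_cf ε p x 0).1, (P_cf ε p x 0).2]
      have := mul_le_mul_of_nonneg_left (row0 h x).2 hε.le
      nlinarith) (col0 h y).2.1
  rwa [← sq] at this

theorem g_append_ge_left3 (h : Good ε p) (x y : List Bool) :
    (1 - 11 / 10 * ε ^ 4) * (g ε p (x ++ [false, false, false]) * g ε p y) ≤
      g ε p ((x ++ [false, false, false]) ++ y) := by
  have hε := h.pos
  have e : x ++ [false, false, false] = ((x ++ [false]) ++ [false]) ++ [false] := by simp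
  have := g_append_ge_aux h (x ++ [false, false, false]) y (s := ε ^ 3) (t := ε) (by positivity)
    hε.le
    (by
      rw [g, e, (P_cf ε p _ 0).1, (P_cf ε p _ 0).2, (P_cf ε p _ 0).1, (P_cf ε p _ 0).2,
        (P_cf ε p _ 0).1, (P_cf ε p _ 0).2]
      have := mul_le_mul_of_nonneg_left (row0 h x).2 (by positivity : 0 ≤ ε ^ 3)
      nlinarith) (col0 h y).2.1
  rwa [← pow_succ] at this

theorem g_false_cons (ε p : ℝ) (w : List Bool) : g ε p (false :: w) = g ε p w :=
  (P_fc ε p w 0).1

theorem g_concat_false (ε p : ℝ) (w : List Bool) : g ε p (w ++ [false]) = g ε p w :=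
  (P_cf ε p w 0).1

theorem g_true (ε p : ℝ) : g ε p [true] = p := by
  rw [g, (P_tc ε p [] 0).1, P_nil]; simp

theorem g_true_cons_le (h : Good ε p) (w : List Bool) : g ε p (true :: w) ≤ p * g ε p w := by
  rw [g, (P_tc ε p w 0).1, g]
  linarith [(col0 h w).2.2]

theorem g_true_true_le (h : Good ε p) (w : List Bool) :
    g ε p (true :: true :: w) ≤ (p - 24 / 25 * ε) * g ε p (true :: w) := by
  have hε := h.pos
  have hε' := h.le
  have hp := h.p_lo
  have hp' := h.p_hi
  have hk := h.k_lo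
  have key : P ε p (true :: w) 1 0 ≤ -(24 / 25 * ε) * g ε p (true :: w) := by
    rw [g, (P_tc ε p w 0).1, (P_tc ε p w 0).2]
    obtain ⟨hA, hC, hC'⟩ := col0 h w
    generalize P ε p w 0 0 = A at *
    generalize P ε p w 1 0 = C at *
    have hkA : 99 / 100 * A ≤ (1 - p + p ^ 2) * A := mul_le_mul_of_nonneg_right hk hA.le
    have hpA : p * A ≤ 101 / 100 * A := mul_le_mul_of_nonneg_right hp' hA.le
    have h1 : (1 - p) * C ≤ -(1 / 100 * C) := by nlinarith
    have hC2 : -(103 / 100 * (1 / 1000) * A) ≤ C := by nlinarith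
    have h2 : -(1 - p + p ^ 2) * A + (1 - p) * C + 24 / 25 * (p * A + C) ≤ 0 := by nlinarith
    have := mul_nonneg hε.le (neg_nonneg.2 h2)
    nlinarith
  rw [g, (P_tc ε p (true :: w) 0).1]
  rw [g] at key ⊢
  linarith

theorem T_rot (ε p : ℝ) (x y : List Bool) : T ε p (x ++ y) = T ε p (y ++ x) := by
  rw [T, T, P_append, P_append, Matrix.trace_mul_comm]

end Pool.Agent.MP9a50b7.NoFP
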