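import Pool.Agent.Lib.MP_9a50b7_lc.NoFP.Defs
import Pool.Agent.Lib.MP_9a50b7_lc.Transfer

/-!
# If every word can be improved then the finiteness property fails
-/

set_option autoImplicit false

namespace Pool.Agent.MP9a50b7.NoFP

open Matrix

theorem rep_map_prod {ι : Type} [Fintype ι] [DecidableEq ι] (A : Bool → Matrix ι ι ℝ)
    (k : ℕ) (w : List Bool) : ((rep k w).map A).prod = (w.map A).prod ^ k := by
  unfold rep
  induction k with
  | zero => simp
  | succ k ih =>
    rw [List.replicate_succ, List.flatten_cons, List.map_append, List.prod_append, ih, pow_succ']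

theorem length_rep' (k : ℕ) (w : List Bool) : (rep k w).length = k * w.length := by
  unfold rep
  simp

/-- every family has some exponential growth bound -/
theorem exists_gr {ι : Type} [Fintype ι] [DecidableEq ι] (A : Bool → Matrix ι ι ℝ) :
    ∃ s : ℝ, 0 < s ∧ Gr A s := by
  classical
  set B : ℝ := 1 + ∑ c, ∑ i, ∑ j, |A c i j| with hB
  have hB0 : 0 ≤ ∑ c, ∑ i, ∑ j, |A c i j| :=
    Finset.sum_nonneg fun _ _ => Finset.sum_nonneg fun _ _ => Finset.sum_nonneg fun _ _ =>
      abs_nonneg _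
  have hBpos : 0 < B := by linarith
  have hrow : ∀ c i, ∑ j, |A c i j| ≤ B := by
    intro c i
    have h1 : ∑ j, |A c i j| ≤ ∑ i, ∑ j, |A c i j| :=
      Finset.single_le_sum (f := fun i => ∑ j, |A c i j|)
        (fun _ _ => Finset.sum_nonneg fun _ _ => abs_nonneg _) (Finset.mem_univ i)
    have h2 : ∑ i, ∑ j, |A c i j| ≤ ∑ c, ∑ i, ∑ j, |A c i j| :=
      Finset.single_le_sum (f := fun c => ∑ i, ∑ j, |A c i j|)
        (fun _ _ => Finset.sum_nonneg fun _ _ => Finset.sum_nonneg fun _ _ => abs_nonneg _)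
        (Finset.mem_univ c)
    linarith
  have key : ∀ (w : List Bool) (i : ι), ∑ j, |(w.map A).prod i j| ≤ B ^ w.length := by
    intro w
    induction w with
    | nil =>
      intro i
      simp [Matrix.one_apply, apply_ite abs]
    | cons c w ih =>
      intro i
      rw [List.map_cons, List.prod_cons, List.length_cons, pow_succ']
      calc ∑ j, |(A c * (w.map A).prod) i j|
          ≤ ∑ j, ∑ l, |A c i l| * |(w.map A).prod l j| := by
            refine Finset.sum_le_sum fun j _ => ?_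
            rw [Matrix.mul_apply]
            refine (Finset.abs_sum_le_sum_abs _ _).trans (le_of_eq ?_)
            exact Finset.sum_congr rfl fun l _ => abs_mul _ _
        _ = ∑ l, |A c i l| * ∑ j, |(w.map A).prod l j| := by
            rw [Finset.sum_comm]
            exact Finset.sum_congr rfl fun l _ => (Finset.mul_sum _ _ _).symm
        _ ≤ ∑ l, |A c i l| * B ^ w.length :=
            Finset.sum_le_sum fun l _ => mul_le_mul_of_nonneg_left (ih l) (abs_nonneg _)
        _ = (∑ l, |A c i l|) * B ^ w.length := (Finset.sum_mul _ _ _).symm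
        _ ≤ B * B ^ w.length := mul_le_mul_of_nonneg_right (hrow c i) (pow_nonneg hBpos.le _)
  refine ⟨B, hBpos, 1, fun w i j => ?_⟩
  rw [one_mul]
  exact (Finset.single_le_sum (f := fun j => |(w.map A).prod i j|)
    (fun _ _ => abs_nonneg _) (Finset.mem_univ j)).trans (key w i)

/-- a growth bound for a power gives one for the matrix -/
theorem pgr_of_pow {ι : Type} [Fintype ι] [DecidableEq ι] {X : Matrix ι ι ℝ} {m : ℕ} {r : ℝ}
    (hm : 0 < m) (hr : 0 < r) (h : PGr (X ^ m) (r ^ m)) : PGr X r := by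
  obtain ⟨C, hC⟩ := h
  set D : ℝ := ∑ t ∈ Finset.range m, (∑ l, ∑ j, |(X ^ t) l j|) / r ^ t with hD
  refine ⟨max C 0 * D, fun k i j => ?_⟩
  set q := k / m with hq
  set t := k % m with ht
  have htm : t < m := Nat.mod_lt _ hm
  have hk : k = m * q + t := (Nat.div_add_mod k m).symm
  have hrt : 0 < r ^ t := pow_pos hr t
  have hX : X ^ k = (X ^ m) ^ q * X ^ t := by
    rw [← pow_mul, ← pow_add, ← hk]
  have h1 : ∀ l, |((X ^ m) ^ q) i l| ≤ max C 0 * (r ^ m) ^ q := fun l =>
    (hC q i l).trans (mul_le_mul_of_nonneg_right (le_max_left _ _)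
      (pow_nonneg (pow_nonneg hr.le _) _))
  have h2 : ∑ l, |(X ^ t) l j| ≤ ∑ l, ∑ j, |(X ^ t) l j| :=
    Finset.sum_le_sum fun l _ => Finset.single_le_sum (f := fun j => |(X ^ t) l j|)
      (fun _ _ => abs_nonneg _) (Finset.mem_univ j)
  have h3 : (∑ l, ∑ j, |(X ^ t) l j|) / r ^ t ≤ D :=
    Finset.single_le_sum (f := fun t => (∑ l, ∑ j, |(X ^ t) l j|) / r ^ t)
      (fun t _ => div_nonneg (Finset.sum_nonneg fun _ _ => Finset.sum_nonneg fun _ _ =>
        abs_nonneg _) (pow_nonneg hr.le _)) (Finset.mem_range.2 htm)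
  have h4 : ∑ l, |(X ^ t) l j| ≤ D * r ^ t := by
    rw [div_le_iff₀ hrt] at h3
    exact h2.trans h3
  have h5 : 0 ≤ max C 0 * (r ^ m) ^ q :=
    mul_nonneg (le_max_right _ _) (pow_nonneg (pow_nonneg hr.le _) _)
  rw [hX, Matrix.mul_apply]
  calc |∑ l, ((X ^ m) ^ q) i l * (X ^ t) l j|
      ≤ ∑ l, |((X ^ m) ^ q) i l| * |(X ^ t) l j| := by
        refine (Finset.abs_sum_le_sum_abs _ _).trans (le_of_eq ?_)
        exact Finset.sum_congr rfl fun l _ => abs_mul _ _
    _ ≤ ∑ l, (max C 0 * (r ^ m) ^ q) * |(X ^ t) l j| :=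
        Finset.sum_le_sum fun l _ => mul_le_mul_of_nonneg_right (h1 l) (abs_nonneg _)
    _ = (max C 0 * (r ^ m) ^ q) * ∑ l, |(X ^ t) l j| := (Finset.mul_sum _ _ _).symm
    _ ≤ (max C 0 * (r ^ m) ^ q) * (D * r ^ t) := mul_le_mul_of_nonneg_left h4 h5
    _ = max C 0 * D * r ^ k := by
        have : r ^ k = (r ^ m) ^ q * r ^ t := by rw [← pow_mul, ← pow_add, ← hk]
        rw [this]
        ring

theorem trace_le_of_entries {ι : Type} [Fintype ι] {Y : Matrix ι ι ℝ} {b : ℝ}
    (h : ∀ i j, |Y i j| ≤ b) : Y.trace ≤ Fintype.card ι * b := by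
  unfold Matrix.trace
  calc ∑ i, Y.diag i ≤ ∑ _i : ι, b :=
        Finset.sum_le_sum fun i _ => (le_abs_self _).trans (h i i)
    _ = Fintype.card ι * b := by simp

theorem not_fpg_of_imp {ι : Type} [Fintype ι] [DecidableEq ι] (A : Bool → Matrix ι ι ℝ) (C : ℝ)
    (hC : ∀ w : List Bool, 3 ∣ w.length → ∀ i j, |(w.map A).prod i j| ≤ C * (w.map A).prod.trace)
    (himp : ∀ w : List Bool, w ≠ [] → Imp (fun u => (u.map A).prod.trace) w)
    (hpos : ∃ κ c : ℝ, 0 < κ ∧ 0 < c ∧ ∀ k : ℕ, κ * c ^ k ≤ (A false ^ (3 * k)).trace) :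
    ¬ FPg A := by
  rintro ⟨w, hw, hfp⟩
  obtain ⟨κ0, c0, hκ0, hc0, hlow⟩ := hpos
  obtain ⟨j, v', c, κ, hj, hlen, hc, hκ, himpk⟩ := himp w hw
  set X := (w.map A).prod with hX
  have hL : 0 < w.length := List.length_pos_iff.2 hw
  -- the index type is nonempty and the constant is nonnegative
  have hC0 : 0 ≤ C := by
    have h1 := hlow 0
    rw [pow_zero, mul_one, mul_zero, pow_zero, Matrix.trace_one] at h1
    have h2 : (0:ℝ) < Fintype.card ι := lt_of_lt_of_le hκ0 h1
    have h3 : Nonempty ι := Fintype.card_pos_iff.1 (by exact_mod_cast h2)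
    obtain ⟨i⟩ := h3
    have h4 := hC [] (by simp) i i
    simp only [List.map_nil, List.prod_nil, Matrix.one_apply_eq, abs_one, Matrix.trace_one] at h4
    by_contra hneg
    push Not at hneg
    nlinarith
  -- the contraction factor
  set m : ℕ := 3 * j * w.length with hm
  have hm0 : 0 < m := by positivity
  set θ : ℝ := (1 / c) ^ ((m : ℝ)⁻¹) with hθ
  have hc' : 0 < c := by linarith
  have hθ0 : 0 < θ := Real.rpow_pos_of_pos (by positivity) _
  have hθm : θ ^ m = 1 / c := Real.rpow_inv_natCast_pow (by positivity) hm0.ne'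
  have hθ1 : θ < 1 := by
    by_contra hge
    push Not at hge
    have h1 : 1 ≤ θ ^ m := one_le_pow₀ hge
    rw [hθm, le_div_iff₀ hc'] at h1
    linarith
  -- one step
  have step : ∀ s : ℝ, 0 < s → Gr A s → Gr A (s * ((1 + θ) / 2)) := by
    intro s hs hgr
    obtain ⟨C1, hC1⟩ := hgr
    have hsθ : 0 < s * θ := mul_pos hs hθ0
    have hX1 : PGr (X ^ (3 * j)) (((s * θ) ^ w.length) ^ (3 * j)) := by
      refine ⟨C * (Fintype.card ι * C1 / κ), fun k i i' => ?_⟩
      have e2 : (((s * θ) ^ w.length) ^ (3 * j)) ^ k = (s ^ m) ^ k * (1 / c) ^ k := by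
        have e1 : ((s * θ) ^ w.length) ^ (3 * j) = s ^ m * (1 / c) := by
          rw [← pow_mul, mul_comm w.length (3 * j), ← hm, mul_pow, hθm]
        rw [e1, mul_pow]
      have hXk : (X ^ (3 * j)) ^ k = ((rep (3 * j * k) w).map A).prod := by
        rw [rep_map_prod, ← hX, ← pow_mul]
      have h1 := himpk k
      simp only at h1
      have h2 : ((rep (3 * k) v').map A).prod.trace ≤
          Fintype.card ι * (C1 * (s ^ m) ^ k) := by
        refine trace_le_of_entries fun a b => ?_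
        have h3 := hC1 (rep (3 * k) v') a b
        have h4 : (rep (3 * k) v').length = m * k := by
          rw [length_rep', hlen, hm]
          ring
        rw [h4, pow_mul] at h3
        exact h3
      have h5 := hC (rep (3 * j * k) w) (by
        rw [length_rep', mul_assoc, mul_assoc]; exact Dvd.intro _ rfl) i i'
      rw [hXk]
      have h6 : ((rep (3 * j * k) w).map A).prod.trace ≤
          (Fintype.card ι * C1 / κ) * ((s ^ m) ^ k * (1 / c) ^ k) := by
        have hck : 0 < κ * c ^ k := mul_pos hκ (pow_pos hc' k)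
        have h7 := h1.trans h2
        rw [mul_comm, ← le_div_iff₀ hck] at h7
        refine h7.trans (le_of_eq ?_)
        rw [one_div, inv_pow]
        field_simp
      rw [e2]
      calc |((rep (3 * j * k) w).map A).prod i i'|
          ≤ C * ((rep (3 * j * k) w).map A).prod.trace := h5
        _ ≤ C * ((Fintype.card ι * C1 / κ) * ((s ^ m) ^ k * (1 / c) ^ k)) :=
            mul_le_mul_of_nonneg_left h6 hC0
        _ = C * (Fintype.card ι * C1 / κ) * ((s ^ m) ^ k * (1 / c) ^ k) := by ring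
    have hX2 : PGr X ((s * θ) ^ w.length) :=
      pgr_of_pow (m := 3 * j) (by positivity) (pow_pos hsθ _) hX1
    have h8 := hfp (s * θ) hsθ hX2 (s * (1 - θ) / 2) (by
      have : 0 < 1 - θ := by linarith
      positivity)
    have h9 : s * θ + s * (1 - θ) / 2 = s * ((1 + θ) / 2) := by ring
    rwa [h9] at h8
  set η : ℝ := (1 + θ) / 2 with hη
  have hη0 : 0 < η := by linarith
  have hη1 : η < 1 := by linarith
  obtain ⟨s0, hs0, hgr0⟩ := exists_gr A
  have hall : ∀ n : ℕ, Gr A (s0 * η ^ n) := by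
    intro n
    induction n with
    | zero => simpa using hgr0
    | succ n ih =>
      have := step (s0 * η ^ n) (mul_pos hs0 (pow_pos hη0 n)) ih
      rwa [mul_assoc, ← pow_succ] at this
  -- lower bound
  have hge : ∀ s : ℝ, 0 < s → Gr A s → c0 ≤ s ^ 3 := by
    intro s hs hgr
    obtain ⟨C1, hC1⟩ := hgr
    refine le_of_pow_le (C := Fintype.card ι * C1 / κ0) hc0.le (pow_pos hs 3) fun k => ?_
    have h1 : (A false ^ (3 * k)).trace ≤ Fintype.card ι * (C1 * (s ^ 3) ^ k) := by
      refine trace_le_of_entries fun a b => ?_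
      have h3 := hC1 (List.replicate (3 * k) false) a b
      rw [List.map_replicate, List.prod_replicate, List.length_replicate, pow_mul s] at h3
      exact h3
    have h2 := (hlow k).trans h1
    rw [mul_comm, ← le_div_iff₀ hκ0] at h2
    refine h2.trans (le_of_eq ?_)
    field_simp
  -- contradiction
  have hlim : ∃ n : ℕ, (s0 * η ^ n) ^ 3 < c0 := by
    obtain ⟨n, hn⟩ := exists_pow_lt_of_lt_one (show 0 < min (c0 / s0 ^ 3) 1 by
      have : 0 < c0 / s0 ^ 3 := by positivity
      positivity) hη1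
    refine ⟨n, ?_⟩
    have h1 : η ^ n < c0 / s0 ^ 3 := lt_of_lt_of_le hn (min_le_left _ _)
    have h2 : η ^ n < 1 := lt_of_lt_of_le hn (min_le_right _ _)
    have h3 : 0 < η ^ n := pow_pos hη0 n
    have h4 : (η ^ n) ^ 3 ≤ η ^ n := by
      have : (η ^ n) ^ 3 = η ^ n * ((η ^ n) * (η ^ n)) := by ring
      rw [this]
      nlinarith
    have hs3 : 0 < s0 ^ 3 := pow_pos hs0 3
    rw [lt_div_iff₀ hs3] at h1
    calc (s0 * η ^ n) ^ 3 = (η ^ n) ^ 3 * s0 ^ 3 := by ring
      _ ≤ η ^ n * s0 ^ 3 := mul_le_mul_of_nonneg_right h4 hs3.le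
      _ < c0 := h1
  obtain ⟨n, hn⟩ := hlim
  exact absurd (hge _ (mul_pos hs0 (pow_pos hη0 n)) (hall n)) (not_le.2 hn)

theorem fpg_comp_equiv {ι ι' I : Type} [Fintype I] [DecidableEq I] {M : ι → Matrix I I ℝ}
    (e : ι' ≃ ι) (h : FPg (fun a => M (e a))) : FPg M := by
  have hprod : ∀ w : List ι', (w.map fun a => M (e a)).prod = ((w.map e).map M).prod := by
    intro w
    rw [List.map_map]
    rfl
  obtain ⟨w, hw, h⟩ := h
  refine ⟨w.map e, fun h0 => hw (List.map_eq_nil_iff.1 h0), fun ρ hρ hP ε hε => ?_⟩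
  rw [← hprod, List.length_map] at hP
  obtain ⟨C, hC⟩ := h ρ hρ hP ε hε
  refine ⟨C, fun u i j => ?_⟩
  have h1 := hC (u.map e.symm) i j
  have h2 : (u.map e.symm).map e = u := by
    rw [List.map_map]
    have h3 : (⇑e ∘ ⇑e.symm) = id := by
      funext x
      simp
    rw [h3, List.map_id]
  rw [hprod, h2, List.length_map] at h1
  exact h1

theorem not_all_fp_of_not_fpg {ι : Type} [Fintype ι] [DecidableEq ι] [Nonempty ι]
    (N : Bool → Matrix ι ι ℤ)
    (h : ¬ FPg (fun c => (N c).map (Int.cast : ℤ → ℝ))) :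
    ¬ ∀ (n : ℕ) (L : List (List (List ℤ))), 0 < n → L ≠ [] → FP (n, L) := by
  intro hall
  apply h
  set e := Fintype.equivFin ι with he
  have hn : 0 < Fintype.card ι := Fintype.card_pos
  set Z : Fin 2 → Matrix (Fin (Fintype.card ι)) (Fin (Fintype.card ι)) ℤ := fun k =>
    (N (finTwoEquiv k)).submatrix e.symm e.symm with hZ
  have h1 := hall (Fintype.card ι) (List.ofFn fun k => encM (Z k)) hn (by
    intro h0
    have := congrArg List.length h0
    simp at this)
  rw [fp_ofFn hn] at h1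
  have h2 : (fun k => (Z k).map (Int.cast : ℤ → ℝ)) =
      fun k => ((fun c => ((N c).map (Int.cast : ℤ → ℝ))) (finTwoEquiv k)).submatrix
        e.symm e.symm := by
    funext k
    rfl
  rw [h2, fpg_reindex_iff e
    (M := fun k => (fun c => ((N c).map (Int.cast : ℤ → ℝ))) (finTwoEquiv k))] at h1
  exact fpg_comp_equiv (M := fun c => (N c).map (Int.cast : ℤ → ℝ)) finTwoEquiv h1

end Pool.Agent.MP9a50b7.NoFP
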