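import Pool.Agent.Lib.MP_9a50b7_lc.NoFP.Ent
import Pool.Agent.Lib.MP_9a50b7_lc.NoFP.Ren
import Pool.Agent.Lib.MP_9a50b7_lc.NoFP.Dec
import Mathlib.LinearAlgebra.Matrix.Kronecker

/-!
# The 256 x 256 integer matrices: trace and entry formulas
-/

set_option autoImplicit false

namespace Pool.Agent.MP9a50b7.NoFP
open scoped Kronecker

/-- The integer letters. -/
def Z (K : ℤ) : Bool → Matrix (Fin 2) (Fin 2) ℤ
  | false => !![K, 0; 0, 1]
  | true => !![K, K; -1, 0]

/-- The operator `x ⊗ y ⊗ z ↦ y ⊗ z ⊗ Z_c x`. -/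
def Z8 (K : ℤ) (c : Bool) : Matrix (Fin 2 × Fin 2 × Fin 2) (Fin 2 × Fin 2 × Fin 2) ℤ :=
  fun i j => if i.1 = j.2.1 ∧ i.2.1 = j.2.2 then Z K c i.2.2 j.1 else 0

/-- The index set of the matrices (256 elements). -/
abbrev I : Type := (Fin 2 × Fin 2) × ((Fin 2 × Fin 2 × Fin 2) × (Fin 2 × Fin 2 × Fin 2))

/-- The two integer matrices. -/
def N (c : Bool) : Matrix I I ℤ :=
  (Z 10000 c ⊗ₖ (Z 10000 (!c) * Z 10000 false)) ⊗ₖ
    (Z8 1000000 c ⊗ₖ (Z8 1000000 (!c) * Z8 1000000 false))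

/-! ### Letters -/

private theorem mat_letter (K : ℤ) (ε : ℝ) (hK : (K : ℝ) * ε = 1) (c : Bool) (i j : Fin 2) :
    ((Z K c i j : ℤ) : ℝ) = (K : ℝ) * M ε 1 c i j := by
  cases c <;> fin_cases i <;> fin_cases j <;> simp [Z, M] <;> linarith

private theorem mat_entry (K : ℤ) (ε : ℝ) (hK : (K : ℝ) * ε = 1) (w : List Bool) :
    ∀ i j : Fin 2, (((w.map (Z K)).prod i j : ℤ) : ℝ) = (K : ℝ) ^ w.length * P ε 1 w i j := by
  induction w with
  | nil =>
    intro i j
    rw [P_nil, List.map_nil, List.prod_nil, Matrix.one_apply, Matrix.one_apply]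
    split_ifs <;> simp
  | cons c w ih =>
    intro i j
    rw [List.map_cons, List.prod_cons, P_cons, Matrix.mul_apply, Matrix.mul_apply,
      Fin.sum_univ_two, Fin.sum_univ_two, Int.cast_add, Int.cast_mul, Int.cast_mul, ih, ih,
      mat_letter K ε hK, mat_letter K ε hK, List.length_cons]
    ring

private theorem mat_trace (K : ℤ) (ε : ℝ) (hK : (K : ℝ) * ε = 1) (w : List Bool) :
    (((w.map (Z K)).prod.trace : ℤ) : ℝ) = (K : ℝ) ^ w.length * T ε 1 w := by
  rw [Matrix.trace_fin_two, T, Matrix.trace_fin_two, Int.cast_add, mat_entry K ε hK,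
    mat_entry K ε hK]
  ring

/-! ### Products -/

private theorem mat_kron {ι κ : Type} [Fintype ι] [Fintype κ] [DecidableEq ι] [DecidableEq κ]
    (A : Bool → Matrix ι ι ℤ) (B : Bool → Matrix κ κ ℤ) (w : List Bool) :
    (w.map (fun c => A c ⊗ₖ B c)).prod = (w.map A).prod ⊗ₖ (w.map B).prod := by
  induction w with
  | nil => simp
  | cons c w ih =>
    rw [List.map_cons, List.prod_cons, ih, List.map_cons, List.prod_cons, List.map_cons,
      List.prod_cons, Matrix.mul_kronecker_mul]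

private theorem mat_sub {ι : Type} [Fintype ι] [DecidableEq ι]
    (A : Bool → Matrix ι ι ℤ) (w : List Bool) :
    (w.map (fun c => A (!c) * A false)).prod = ((sub w).map A).prod := by
  induction w with
  | nil => simp [sub]
  | cons c w ih =>
    rw [List.map_cons, List.prod_cons, ih, sub, List.map_cons, List.prod_cons, List.map_cons,
      List.prod_cons, mul_assoc]

private theorem mat_sub_length (w : List Bool) : (sub w).length = 2 * w.length := by
  induction w with
  | nil => simp [sub]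
  | cons c w ih =>
    rw [sub, List.length_cons, List.length_cons, ih, List.length_cons]
    ring

private theorem mat_dec_length (w : List Bool) :
    (dec w).2.2.length + ((dec w).2.1.length + (dec w).1.length) = w.length := by
  induction w with
  | nil => simp [dec]
  | cons c w ih =>
    rw [dec, List.length_cons]
    simp only [List.length_cons]
    omega

private theorem mat_Z8_two (K : ℤ) (c1 c2 : Bool) (i j : Fin 2 × Fin 2 × Fin 2) :
    (Z8 K c1 * Z8 K c2) i j
      = if i.1 = j.2.2 then Z K c1 i.2.2 j.2.1 * Z K c2 i.2.1 j.1 else 0 := by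
  rw [Matrix.mul_apply, Finset.sum_eq_single (j.2.1, i.1, i.2.1)]
  · by_cases h : i.1 = j.2.2 <;> simp [Z8, h]
  · intro k _ hk
    simp only [Z8]
    by_cases h1 : i.1 = k.2.1 ∧ i.2.1 = k.2.2
    · by_cases h2 : k.1 = j.2.1 ∧ k.2.1 = j.2.2
      · exfalso
        apply hk
        rw [h1.1, h1.2, ← h2.1]
      · rw [if_neg h2, mul_zero]
    · rw [if_neg h1, zero_mul]
  · intro h
    exact absurd (Finset.mem_univ _) h

private theorem mat_Z8_three (K : ℤ) (c1 c2 c3 : Bool) :
    Z8 K c1 * Z8 K c2 * Z8 K c3 = Z K c3 ⊗ₖ (Z K c2 ⊗ₖ Z K c1) := by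
  ext i j
  rw [Matrix.mul_apply, Finset.sum_eq_single (j.2.1, j.2.2, i.1)]
  · rw [mat_Z8_two]
    simp only [Z8, Matrix.kroneckerMap_apply]
    simp
    ring
  · intro k _ hk
    rw [mat_Z8_two]
    simp only [Z8]
    by_cases h1 : i.1 = k.2.2
    · by_cases h2 : k.1 = j.2.1 ∧ k.2.1 = j.2.2
      · exfalso
        apply hk
        rw [h1, ← h2.1, ← h2.2]
      · rw [if_neg h2, mul_zero]
    · rw [if_neg h1, zero_mul]
  · intro h
    exact absurd (Finset.mem_univ _) h

private theorem mat_Z8_prod (K : ℤ) (m : ℕ) : ∀ w : List Bool, w.length = 3 * m →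
    (w.map (Z8 K)).prod = ((dec w).2.2.map (Z K)).prod ⊗ₖ
      (((dec w).2.1.map (Z K)).prod ⊗ₖ ((dec w).1.map (Z K)).prod) := by
  induction m with
  | zero =>
    intro w hw
    have : w = [] := List.eq_nil_of_length_eq_zero (by omega)
    subst this
    simp [dec]
  | succ m ih =>
    intro w hw
    match w, hw with
    | x :: y :: z :: u, hw =>
      have hu : u.length = 3 * m := by
        simp only [List.length_cons] at hw
        omega
      simp only [dec, List.map_cons, List.prod_cons]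
      rw [ih u hu, ← mul_assoc, ← mul_assoc, mat_Z8_three, ← Matrix.mul_kronecker_mul,
        ← Matrix.mul_kronecker_mul]

private theorem mat_Z8_trace (K : ℤ) (ε : ℝ) (hK : (K : ℝ) * ε = 1) (w : List Bool)
    (hw : 3 ∣ w.length) :
    (((w.map (Z8 K)).prod.trace : ℤ) : ℝ) = (K : ℝ) ^ w.length * T3 ε 1 w := by
  obtain ⟨m, hm⟩ := hw
  rw [mat_Z8_prod K m w hm, Matrix.trace_kronecker, Matrix.trace_kronecker, Int.cast_mul,
    Int.cast_mul, mat_trace K ε hK, mat_trace K ε hK, mat_trace K ε hK, T3]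
  have h := mat_dec_length w
  rw [← h, pow_add, pow_add]
  ring

private theorem mat_entry_le {K : ℤ} {ε : ℝ} (hK : (K : ℝ) * ε = 1) (hK0 : 0 < K)
    (h : Good ε 1) (w : List Bool) (i j : Fin 2) :
    |(((w.map (Z K)).prod i j : ℤ) : ℝ)| ≤ 2 * (((w.map (Z K)).prod.trace : ℤ) : ℝ) := by
  have hK1 : (0 : ℝ) < (K : ℝ) ^ w.length := pow_pos (by exact_mod_cast hK0) _
  rw [mat_entry K ε hK, mat_trace K ε hK, abs_mul, abs_of_pos hK1]
  have := mul_le_mul_of_nonneg_left (P_entry_le h w i j) hK1.le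
  linarith

private theorem mat_Z8_entry_le {K : ℤ} {ε : ℝ} (hK : (K : ℝ) * ε = 1) (hK0 : 0 < K)
    (h : Good ε 1) (w : List Bool) (hw : 3 ∣ w.length) (i j : Fin 2 × Fin 2 × Fin 2) :
    |(((w.map (Z8 K)).prod i j : ℤ) : ℝ)| ≤ 8 * (((w.map (Z8 K)).prod.trace : ℤ) : ℝ) := by
  obtain ⟨m, hm⟩ := hw
  rw [mat_Z8_prod K m w hm, Matrix.trace_kronecker, Matrix.trace_kronecker,
    Matrix.kroneckerMap_apply, Matrix.kroneckerMap_apply, Int.cast_mul, Int.cast_mul,
    Int.cast_mul, Int.cast_mul, abs_mul, abs_mul]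
  have h1 := mat_entry_le hK hK0 h (dec w).2.2 i.1 j.1
  have h2 := mat_entry_le hK hK0 h (dec w).2.1 i.2.1 j.2.1
  have h3 := mat_entry_le hK hK0 h (dec w).1 i.2.2 j.2.2
  have h23 := mul_le_mul h2 h3 (abs_nonneg _) ((abs_nonneg _).trans h2)
  have h123 := mul_le_mul h1 h23 (mul_nonneg (abs_nonneg _) (abs_nonneg _))
    ((abs_nonneg _).trans h1)
  refine h123.trans (le_of_eq ?_)
  ring

private theorem mat_N_prod (w : List Bool) :
    (w.map N).prod = ((w.map (Z 10000)).prod ⊗ₖ ((sub w).map (Z 10000)).prod) ⊗ₖ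
      ((w.map (Z8 1000000)).prod ⊗ₖ ((sub w).map (Z8 1000000)).prod) := by
  rw [← mat_sub, ← mat_sub, ← mat_kron, ← mat_kron, ← mat_kron]
  rfl

private theorem mat_K : (((10000 : ℤ) : ℝ)) * (1 / 10000) = 1 := by norm_num
private theorem mat_L : (((1000000 : ℤ) : ℝ)) * (1 / 1000000) = 1 := by norm_num

private theorem mat_good_e : Good (1 / 10000) 1 := by
  refine ⟨?_, ?_, ?_, ?_⟩ <;> norm_num

private theorem mat_good_f : Good (1 / 1000000) 1 := by
  refine ⟨?_, ?_, ?_, ?_⟩ <;> norm_num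

theorem trace_N : ∃ D : ℝ, 0 < D ∧ ∀ w : List Bool, 3 ∣ w.length →
    (((w.map N).prod.trace : ℤ) : ℝ) =
      D ^ w.length * TT (1 / 10000) 1 (1 / 1000000) 1 w := by
  refine ⟨((10000 : ℝ) ^ 3 * R (1 / 10000) 1) * ((1000000 : ℝ) ^ 3 * R (1 / 1000000) 1), ?_, ?_⟩
  · have h1 := mat_good_e.R_pos
    have h2 := mat_good_f.R_pos
    positivity
  · intro w hw
    have hs : 3 ∣ (sub w).length := by
      rw [mat_sub_length]
      exact hw.mul_left 2
    rw [mat_N_prod, Matrix.trace_kronecker, Matrix.trace_kronecker, Matrix.trace_kronecker,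
      Int.cast_mul, Int.cast_mul, Int.cast_mul, mat_trace _ _ mat_K, mat_trace _ _ mat_K,
      mat_Z8_trace _ _ mat_L w hw, mat_Z8_trace _ _ mat_L (sub w) hs, T_sub mat_good_e,
      T3_sub mat_good_f w hw, mat_sub_length, TT, mul_pow _ ((1000000 : ℝ) ^ 3 * _),
      mul_pow ((10000 : ℝ) ^ 3), mul_pow ((1000000 : ℝ) ^ 3), ← pow_mul, ← pow_mul]
    push_cast
    generalize (10000 : ℝ) = a
    generalize (1000000 : ℝ) = b
    ring

theorem entry_N (w : List Bool) (hw : 3 ∣ w.length) (i j : I) :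
    |(((w.map N).prod i j : ℤ) : ℝ)| ≤ 256 * (((w.map N).prod.trace : ℤ) : ℝ) := by
  have hs : 3 ∣ (sub w).length := by
    rw [mat_sub_length]
    exact hw.mul_left 2
  rw [mat_N_prod, Matrix.trace_kronecker, Matrix.trace_kronecker, Matrix.trace_kronecker,
    Matrix.kroneckerMap_apply, Matrix.kroneckerMap_apply, Matrix.kroneckerMap_apply,
    Int.cast_mul, Int.cast_mul, Int.cast_mul, Int.cast_mul, Int.cast_mul, Int.cast_mul,
    abs_mul, abs_mul, abs_mul]
  have h1 := mat_entry_le mat_K (by norm_num) mat_good_e w i.1.1 j.1.1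
  have h2 := mat_entry_le mat_K (by norm_num) mat_good_e (sub w) i.1.2 j.1.2
  have h3 := mat_Z8_entry_le mat_L (by norm_num) mat_good_f w hw i.2.1 j.2.1
  have h4 := mat_Z8_entry_le mat_L (by norm_num) mat_good_f (sub w) hs i.2.2 j.2.2
  have h12 := mul_le_mul h1 h2 (abs_nonneg _) ((abs_nonneg _).trans h1)
  have h34 := mul_le_mul h3 h4 (abs_nonneg _) ((abs_nonneg _).trans h3)
  have h := mul_le_mul h12 h34 (mul_nonneg (abs_nonneg _) (abs_nonneg _))
    ((mul_nonneg (abs_nonneg _) (abs_nonneg _)).trans h12)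
  refine h.trans (le_of_eq ?_)
  ring

end Pool.Agent.MP9a50b7.NoFP
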