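import Pool.Agent.Lib.MP_9a50b7_lc.NoFP.Comb
import Pool.Agent.Lib.MP_9a50b7_lc.NoFP.Mat
import Pool.Agent.Lib.MP_9a50b7_lc.NoFP.Fin
import Pool.Agent.Lib.MP_9a50b7_lc.Main

/-! The explicit pair has no finiteness property, and the finiteness property is undecidable. -/

set_option autoImplicit false

namespace Pool.Agent.MP9a50b7.NoFP

theorem base_Om : Om (1 / 10000) 1 (1 / 1000000) 1 := by
  refine ⟨⟨?_, ?_, ?_, ?_⟩, ⟨?_, ?_, ?_, ?_⟩, ?_, ?_⟩ <;> norm_num

/-- The real matrices. -/
noncomputable def NR (c : Bool) : Matrix I I ℝ := (N c).map (Int.cast : ℤ → ℝ)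

theorem prod_NR (w : List Bool) :
    (w.map NR).prod = ((w.map N).prod).map (Int.cast : ℤ → ℝ) := by
  induction w with
  | nil => simp
  | cons c w ih =>
    rw [List.map_cons, List.prod_cons, ih, List.map_cons, List.prod_cons]
    unfold NR
    ext i j
    simp [Matrix.mul_apply]

theorem trace_NR (w : List Bool) :
    (w.map NR).prod.trace = (((w.map N).prod.trace : ℤ) : ℝ) := by
  rw [prod_NR]
  simp [Matrix.trace]

/-- The pair `N` has no finiteness property. -/
theorem not_FPg_N : ¬ FPg NR := by
  obtain ⟨D, hD, htr⟩ := trace_N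
  refine not_fpg_of_imp NR 256 (fun w hw i j => ?_) (fun w hw => ?_) ?_
  · rw [trace_NR, prod_NR, Matrix.map_apply]
    exact entry_N w hw i j
  · obtain ⟨j, v', c, κ, hj, hlen, hc, hκ, hk⟩ := imp_TT base_Om w hw
    refine ⟨j, v', c, κ, hj, hlen, hc, hκ, fun k => ?_⟩
    have e1 : (rep (3 * j * k) w).length = 3 * (j * k * w.length) := by rw [length_rep]; ring
    have e2 : (rep (3 * k) v').length = 3 * (j * k * w.length) := by rw [length_rep, hlen]; ring
    beta_reduce
    rw [trace_NR, trace_NR, htr _ ⟨_, e1⟩, htr _ ⟨_, e2⟩, e1, e2]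
    have h2 := mul_le_mul_of_nonneg_left (hk k) (pow_pos hD (3 * (j * k * w.length))).le
    calc _ = _ := by ring
      _ ≤ _ := h2
  · refine ⟨(9 / 10) ^ 8, D ^ 3, by positivity, by positivity, fun k => ?_⟩
    have e1 : (NR false) ^ (3 * k) = ((List.replicate (3 * k) false).map NR).prod := by
      rw [List.map_replicate, List.prod_replicate]
    rw [e1, trace_NR, htr _ (by rw [List.length_replicate]; exact ⟨k, rfl⟩),
      List.length_replicate, pow_mul, mul_comm]
    refine mul_le_mul_of_nonneg_left ?_ (by positivity)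
    have h2 := TT_ge base_Om (List.replicate (3 * k) false)
    have h3 : ∀ m : ℕ, GG (1 / 10000) 1 (1 / 1000000) 1 (List.replicate m false) = 1 := by
      intro m
      induction m with
      | zero => exact GG_nil _ _ _ _
      | succ m ih => rw [List.replicate_succ, GG_false_cons, ih]
    rw [h3, mul_one] at h2
    exact h2

/-- Not every finite set of integer matrices has the finiteness property. -/
theorem not_all_FP : ¬ ∀ (n : ℕ) (L : List (List (List ℤ))), 0 < n → L ≠ [] → FP (n, L) :=
  not_all_fp_of_not_fpg N not_FPg_N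

/-- The finiteness property is undecidable. -/
theorem not_computable_FP : ¬ ComputablePred FP := fun h => not_all_FP (dichotomy.1 h)

end Pool.Agent.MP9a50b7.NoFP
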