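import Pool.Agent.Lib.MP_9a50b7_lc.NoFP.Ent
import Pool.Agent.Lib.MP_9a50b7_lc.NoFP.Ren
import Pool.Agent.Lib.MP_9a50b7_lc.NoFP.Dec

/-!
# Module IMP: improvement criterion and junction lemmas for `GG`
-/

set_option autoImplicit false

namespace Pool.Agent.MP9a50b7.NoFP

variable {e p f q : ℝ}

theorem GG_pos (h : Om e p f q) (w : List Bool) : 0 < GG e p f q w :=
  mul_pos (mul_pos (g_pos h.ge w) (g_pos h.ge.ren w))
    (mul_pos (g3_pos h.gf w) (g3_pos h.gf.ren w))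

theorem GG_nil (e p f q : ℝ) : GG e p f q [] = 1 := by
  simp [GG, g_nil, g3_nil]

theorem GG_false_cons (e p f q : ℝ) (w : List Bool) :
    GG e p f q (false :: w) = GG e p f q w := by
  simp [GG, g_false_cons, g3_false_cons]

theorem GG_concat_false (e p f q : ℝ) (w : List Bool) :
    GG e p f q (w ++ [false]) = GG e p f q w := by
  simp [GG, g_concat_false, g3_concat_false]

theorem GG_append_le (h : Om e p f q) (x y : List Bool) :
    GG e p f q (x ++ y) ≤ GG e p f q x * GG e p f q y := by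
  have h1 := g_append_le h.ge x y
  have h2 := g_append_le h.ge.ren x y
  have h3 := g3_append_le h.gf x y
  have h4 := g3_append_le h.gf.ren x y
  have p1 := g_pos h.ge (x ++ y)
  have p2 := g_pos h.ge.ren (x ++ y)
  have p3 := g3_pos h.gf (x ++ y)
  have p4 := g3_pos h.gf.ren (x ++ y)
  calc GG e p f q (x ++ y)
      ≤ ((g e p x * g e p y) * (g (re e p) (rp e p) x * g (re e p) (rp e p) y)) *
        ((g3 f q x * g3 f q y) * (g3 (re f q) (rp f q) x * g3 (re f q) (rp f q) y)) :=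
        mul_le_mul (mul_le_mul h1 h2 p2.le (p1.le.trans h1)) (mul_le_mul h3 h4 p4.le (p3.le.trans h3))
          (mul_pos p3 p4).le (mul_nonneg (p1.le.trans h1) (p2.le.trans h2))
    _ = GG e p f q x * GG e p f q y := by simp only [GG]; ring

/-- Combination of four junction estimates. -/
theorem GG_append_ge_of (h : Om e p f q) (x y : List Bool) {D d1 d2 d3 d4 : ℝ}
    (hd1 : 0 ≤ d1) (hd2 : 0 ≤ d2) (hd3 : 0 ≤ d3) (hd4 : 0 ≤ d4)
    (hD : D ≤ (d1 * d2) * (d3 * d4))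
    (h1 : d1 * (g e p x * g e p y) ≤ g e p (x ++ y))
    (h2 : d2 * (g (re e p) (rp e p) x * g (re e p) (rp e p) y) ≤ g (re e p) (rp e p) (x ++ y))
    (h3 : d3 * (g3 f q x * g3 f q y) ≤ g3 f q (x ++ y))
    (h4 : d4 * (g3 (re f q) (rp f q) x * g3 (re f q) (rp f q) y) ≤
      g3 (re f q) (rp f q) (x ++ y)) :
    D * (GG e p f q x * GG e p f q y) ≤ GG e p f q (x ++ y) := by
  have p1 := mul_nonneg hd1 (mul_pos (g_pos h.ge x) (g_pos h.ge y)).le
  have p2 := mul_nonneg hd2 (mul_pos (g_pos h.ge.ren x) (g_pos h.ge.ren y)).le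
  have p3 := mul_nonneg hd3 (mul_pos (g3_pos h.gf x) (g3_pos h.gf y)).le
  have p4 := mul_nonneg hd4 (mul_pos (g3_pos h.gf.ren x) (g3_pos h.gf.ren y)).le
  have q1 := g_pos h.ge (x ++ y)
  have q2 := g_pos h.ge.ren (x ++ y)
  calc D * (GG e p f q x * GG e p f q y)
      ≤ ((d1 * d2) * (d3 * d4)) * (GG e p f q x * GG e p f q y) :=
        mul_le_mul_of_nonneg_right hD (mul_pos (GG_pos h x) (GG_pos h y)).le
    _ = ((d1 * (g e p x * g e p y)) *
          (d2 * (g (re e p) (rp e p) x * g (re e p) (rp e p) y))) *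
        ((d3 * (g3 f q x * g3 f q y)) *
          (d4 * (g3 (re f q) (rp f q) x * g3 (re f q) (rp f q) y))) := by
        simp only [GG]; ring
    _ ≤ GG e p f q (x ++ y) :=
        mul_le_mul (mul_le_mul h1 h2 p2 q1.le) (mul_le_mul h3 h4 p4 (p3.trans h3))
          (mul_nonneg p3 p4) (mul_pos q1 q2).le

/-- Weierstrass product inequality for the shape used below. -/
theorem prod_ge {a b c d : ℝ} (ha : 0 ≤ a) (hb : 0 ≤ b) (hc : 0 ≤ c) (hd : 0 ≤ d)
    (ha1 : a ≤ 1) (hb1 : b ≤ 1) (hc1 : c ≤ 1) (hd1 : d ≤ 1) :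
    1 - (a + b + 3 * c + 3 * d) ≤
      ((1 - a) * (1 - b)) * ((1 - c) ^ 3 * (1 - d) ^ 3) := by
  have key : ∀ s t : ℝ, 0 ≤ s → 0 ≤ t → s ≤ 1 → t ≤ 1 → ∀ S U : ℝ, 0 ≤ S → 0 ≤ U →
      1 - S ≤ s → 1 - U ≤ t → 1 - (S + U) ≤ s * t := by
    intro s t hs ht hs1 ht1 S U hS hU h1 h2
    nlinarith [mul_nonneg (sub_nonneg.2 hs1) (sub_nonneg.2 ht1)]
  have cube : ∀ c : ℝ, 0 ≤ c → c ≤ 1 → 1 - 3 * c ≤ (1 - c) ^ 3 ∧ 0 ≤ (1 - c) ^ 3 ∧
      (1 - c) ^ 3 ≤ 1 := by
    intro c hc hc1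
    have h0 : 0 ≤ 1 - c := by linarith
    refine ⟨?_, pow_nonneg h0 3, pow_le_one₀ h0 (by linarith)⟩
    nlinarith [mul_nonneg (mul_nonneg hc hc) h0, mul_nonneg hc hc]
  obtain ⟨c1, c2, c3⟩ := cube c hc hc1
  obtain ⟨d1, d2, d3⟩ := cube d hd hd1
  have h1 := key (1 - a) (1 - b) (by linarith) (by linarith) (by linarith) (by linarith)
    a b ha hb le_rfl le_rfl
  have h2 := key ((1 - c) ^ 3) ((1 - d) ^ 3) c2 d2 c3 d3 (3 * c) (3 * d) (by linarith)
    (by linarith) c1 d1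
  have hab : 0 ≤ (1 - a) * (1 - b) := mul_nonneg (by linarith) (by linarith)
  have hab1 : (1 - a) * (1 - b) ≤ 1 := by
    have := mul_nonneg (sub_nonneg.2 ha1) hb
    nlinarith
  have hcd : 0 ≤ (1 - c) ^ 3 * (1 - d) ^ 3 := mul_nonneg c2 d2
  have hcd1 : (1 - c) ^ 3 * (1 - d) ^ 3 ≤ 1 := mul_le_one₀ c3 d2 d3
  have h3 := key _ _ hab hcd hab1 hcd1 (a + b) (3 * c + 3 * d) (by linarith) (by linarith) h1 h2
  linarith

/-- Numerical bounds for the parameters. -/
theorem Om.bounds (h : Om e p f q) :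
    0 < e ∧ e ≤ 1 / 1000 ∧ 0 < re e p ∧ re e p ≤ 105 / 100 * e ^ 2 ∧ 0 < f ∧ f ≤ e / 100 ∧
      0 < re f q ∧ re f q ≤ 105 / 100 * f ^ 2 :=
  ⟨h.ge.pos, h.ge.le, h.ge.ren.pos, h.ge.re_le, h.gf.pos, h.hi, h.gf.ren.pos, h.gf.re_le⟩

/-- Squares of the renormalised parameters. -/
theorem Om.squares (h : Om e p f q) :
    e ^ 2 ≤ 1 / 1000 * e ∧ re e p ^ 2 ≤ 1 / 100000 * e ^ 2 ∧ f ^ 2 ≤ 1 / 10000 * e ^ 2 ∧
      re f q ^ 2 ≤ 1 / 100000 * f ^ 2 ∧ re f q ≤ 1 / 100000 * e ∧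
      e ^ 4 ≤ 1 / 1000000 * e ^ 2 ∧ re e p ^ 4 ≤ 1 / 1000000 * e ^ 2 := by
  obtain ⟨e0, e1, a0, a1, f0, f1, b0, b1⟩ := h.bounds
  have he2 : e ^ 2 ≤ 1 / 1000 * e := by nlinarith
  have he2' : e ^ 2 ≤ 1 / 1000000 := by nlinarith
  have hf2 : f ^ 2 ≤ 1 / 10000 * e ^ 2 := by
    have := mul_le_mul f1 f1 f0.le (by positivity)
    nlinarith
  have hf2' : f ^ 2 ≤ 1 / 1000000 := by nlinarith
  have ha : re e p ^ 2 ≤ 1 / 100000 * e ^ 2 := by
    have h1 := mul_le_mul a1 a1 a0.le (by positivity)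
    have h2 : e ^ 2 * e ^ 2 ≤ 1 / 1000000 * e ^ 2 :=
      mul_le_mul_of_nonneg_right he2' (by positivity)
    nlinarith
  have hb : re f q ^ 2 ≤ 1 / 100000 * f ^ 2 := by
    have h1 := mul_le_mul b1 b1 b0.le (by positivity)
    have h2 : f ^ 2 * f ^ 2 ≤ 1 / 1000000 * f ^ 2 :=
      mul_le_mul_of_nonneg_right hf2' (by positivity)
    nlinarith
  have he4 : e ^ 4 ≤ 1 / 1000000 * e ^ 2 := by
    have h2 : e ^ 2 * e ^ 2 ≤ 1 / 1000000 * e ^ 2 :=
      mul_le_mul_of_nonneg_right he2' (by positivity)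
    nlinarith
  refine ⟨he2, ha, hf2, hb, ?_, he4, ?_⟩
  · nlinarith
  · have h3 : re e p ^ 4 = re e p ^ 2 * re e p ^ 2 := by ring
    have h4 : (0:ℝ) ≤ re e p ^ 2 := by positivity
    have h5 : re e p ^ 2 ≤ 1 / 100000 := by nlinarith
    rw [h3]
    nlinarith

theorem GG_append_ge_a (h : Om e p f q) (x y : List Bool) :
    (1 - e / 25) * (GG e p f q x * GG e p f q (false :: y)) ≤
      GG e p f q (x ++ false :: y) := by
  obtain ⟨e0, e1, a0, a1, f0, f1, b0, b1⟩ := h.bounds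
  obtain ⟨s1, s2, s3, s4, s5, s6, s7⟩ := h.squares
  have hee : 0 ≤ e ^ 2 := by positivity
  have hea : 0 ≤ re e p ^ 2 := by positivity
  have hpr := prod_ge (a := 11 / 10 * e ^ 2) (b := 11 / 10 * re e p ^ 2) (c := 11 / 10 * f)
    (d := 11 / 10 * re f q) (by positivity) (by positivity) (by positivity) (by positivity)
    (by linarith) (by linarith) (by linarith) (by linarith)
  refine GG_append_ge_of h x (false :: y) (d1 := 1 - 11 / 10 * e ^ 2)
    (d2 := 1 - 11 / 10 * re e p ^ 2) (d3 := (1 - 11 / 10 * f) ^ 3)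
    (d4 := (1 - 11 / 10 * re f q) ^ 3) (by linarith) (by linarith)
    (pow_nonneg (by linarith) 3) (pow_nonneg (by linarith) 3) (le_trans ?_ hpr)
    (g_append_ge_right h.ge x y) (g_append_ge_right h.ge.ren x y)
    (g3_append_ge h.gf x _) (g3_append_ge h.gf.ren x _)
  linarith

theorem GG_append_ge_right3 (h : Om e p f q) (x y : List Bool) :
    (1 - 111 / 100 * e ^ 2) * (GG e p f q x * GG e p f q (false :: false :: false :: y)) ≤
      GG e p f q (x ++ false :: false :: false :: y) := by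
  obtain ⟨e0, e1, a0, a1, f0, f1, b0, b1⟩ := h.bounds
  obtain ⟨s1, s2, s3, s4, s5, s6, s7⟩ := h.squares
  have hee : 0 ≤ e ^ 2 := by positivity
  have hff : 0 ≤ f ^ 2 := by positivity
  have hpr := prod_ge (a := 11 / 10 * e ^ 2) (b := 11 / 10 * re e p ^ 2)
    (c := 11 / 10 * f ^ 2)
    (d := 11 / 10 * re f q ^ 2) (by positivity) (by positivity) (by positivity) (by positivity)
    (by linarith) (by linarith) (by linarith) (by linarith)
  refine GG_append_ge_of h x (false :: false :: false :: y) (d1 := 1 - 11 / 10 * e ^ 2)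
    (d2 := 1 - 11 / 10 * re e p ^ 2) (d3 := (1 - 11 / 10 * f ^ 2) ^ 3)
    (d4 := (1 - 11 / 10 * re f q ^ 2) ^ 3) (by linarith) (by linarith)
    (pow_nonneg (by linarith) 3) (pow_nonneg (by linarith) 3) (le_trans ?_ hpr)
    (g_append_ge_right h.ge x _) (g_append_ge_right h.ge.ren x _)
    (g3_append_ge_right3 h.gf x y) (g3_append_ge_right3 h.gf.ren x y)
  linarith

theorem GG_append_ge_left3 (h : Om e p f q) (x y : List Bool) :
    (1 - 1 / 1000 * e ^ 2) * (GG e p f q (x ++ [false, false, false]) * GG e p f q y) ≤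
      GG e p f q ((x ++ [false, false, false]) ++ y) := by
  obtain ⟨e0, e1, a0, a1, f0, f1, b0, b1⟩ := h.bounds
  obtain ⟨s1, s2, s3, s4, s5, s6, s7⟩ := h.squares
  have hee : 0 ≤ e ^ 2 := by positivity
  have hff : 0 ≤ f ^ 2 := by positivity
  have hpr := prod_ge (a := 11 / 10 * e ^ 4) (b := 11 / 10 * re e p ^ 4)
    (c := 11 / 10 * f ^ 2)
    (d := 11 / 10 * re f q ^ 2) (by positivity) (by positivity) (by positivity) (by positivity)
    (by linarith) (by linarith) (by linarith) (by linarith)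
  refine GG_append_ge_of h (x ++ [false, false, false]) y (d1 := 1 - 11 / 10 * e ^ 4)
    (d2 := 1 - 11 / 10 * re e p ^ 4) (d3 := (1 - 11 / 10 * f ^ 2) ^ 3)
    (d4 := (1 - 11 / 10 * re f q ^ 2) ^ 3) (by linarith) (by linarith)
    (pow_nonneg (by linarith) 3) (pow_nonneg (by linarith) 3) (le_trans ?_ hpr)
    (g_append_ge_left3 h.ge x y) (g_append_ge_left3 h.ge.ren x y)
    (g3_append_ge_left3 h.gf x y) (g3_append_ge_left3 h.gf.ren x y)
  linarith

theorem GG_append_ge_aba (h : Om e p f q) (U y : List Bool)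
    (hU : U = [true] ∨ ∃ V, U = V ++ [false, true]) :
    (1 - 111 / 100 * e ^ 2) * (GG e p f q U * GG e p f q (false :: true :: false :: y)) ≤
      GG e p f q (U ++ false :: true :: false :: y) := by
  obtain ⟨e0, e1, a0, a1, f0, f1, b0, b1⟩ := h.bounds
  obtain ⟨s1, s2, s3, s4, s5, s6, s7⟩ := h.squares
  have hee : 0 ≤ e ^ 2 := by positivity
  have hff : 0 ≤ f ^ 2 := by positivity
  have hpr := prod_ge (a := 11 / 10 * e ^ 2) (b := 11 / 10 * re e p ^ 2)
    (c := 11 / 10 * f ^ 2)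
    (d := 11 / 10 * re f q ^ 2) (by positivity) (by positivity) (by positivity) (by positivity)
    (by linarith) (by linarith) (by linarith) (by linarith)
  refine GG_append_ge_of h U (false :: true :: false :: y) (d1 := 1 - 11 / 10 * e ^ 2)
    (d2 := 1 - 11 / 10 * re e p ^ 2) (d3 := (1 - 11 / 10 * f ^ 2) ^ 3)
    (d4 := (1 - 11 / 10 * re f q ^ 2) ^ 3) (by linarith) (by linarith)
    (pow_nonneg (by linarith) 3) (pow_nonneg (by linarith) 3) (le_trans ?_ hpr)
    (g_append_ge_right h.ge U _) (g_append_ge_right h.ge.ren U _)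
    (g3_append_ge_aba h.gf U y hU) (g3_append_ge_aba h.gf.ren U y hU)
  linarith

theorem rep_zero (v : List Bool) : rep 0 v = [] := by simp [rep]

theorem rep_succ (k : ℕ) (v : List Bool) : rep (k + 1) v = v ++ rep k v := by
  simp [rep, List.replicate_succ]

theorem GG_rep_le (h : Om e p f q) (v : List Bool) (k : ℕ) :
    GG e p f q (rep k v) ≤ GG e p f q v ^ k := by
  induction k with
  | zero => rw [rep_zero, GG_nil, pow_zero]
  | succ k ih =>
    rw [rep_succ, pow_succ']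
    exact (GG_append_le h v (rep k v)).trans
      (mul_le_mul_of_nonneg_left ih (GG_pos h v).le)

theorem GG_rep_ge (h : Om e p f q) {v' : List Bool} {D : ℝ} (hD : 0 < D)
    (hjct : ∀ k, D * (GG e p f q v' * GG e p f q (rep k v')) ≤ GG e p f q (v' ++ rep k v'))
    (k : ℕ) : (D * GG e p f q v') ^ k ≤ GG e p f q (rep k v') := by
  induction k with
  | zero => rw [rep_zero, GG_nil, pow_zero]
  | succ k ih =>
    rw [rep_succ, pow_succ']
    refine le_trans ?_ (hjct k)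
    rw [mul_assoc]
    exact mul_le_mul_of_nonneg_left
      (mul_le_mul_of_nonneg_left ih (GG_pos h v').le) hD.le

theorem TT_le (h : Om e p f q) (w : List Bool) : TT e p f q w ≤ 2 ^ 8 * GG e p f q w := by
  have h1 := T_le h.ge w
  have h2 := T_le h.ge.ren w
  have h3 := T3_le h.gf w
  have h4 := T3_le h.gf.ren w
  have p1 := g_pos h.ge w
  have p2 := g_pos h.ge.ren w
  have p3 := g3_pos h.gf w
  have p4 := g3_pos h.gf.ren w
  have q2 : 0 ≤ T (re e p) (rp e p) w := le_trans (by positivity) (T_ge h.ge.ren w)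
  have q3 : 0 ≤ T3 f q w := le_trans (by positivity) (T3_ge h.gf w)
  have q4 : 0 ≤ T3 (re f q) (rp f q) w := le_trans (by positivity) (T3_ge h.gf.ren w)
  calc TT e p f q w
      ≤ ((2 * g e p w) * (2 * g (re e p) (rp e p) w)) *
        ((2 ^ 3 * g3 f q w) * (2 ^ 3 * g3 (re f q) (rp f q) w)) :=
        mul_le_mul (mul_le_mul h1 h2 q2 (by positivity)) (mul_le_mul h3 h4 q4 (by positivity))
          (mul_nonneg q3 q4) (by positivity)
    _ = 2 ^ 8 * GG e p f q w := by simp only [GG]; ring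

theorem TT_ge (h : Om e p f q) (w : List Bool) :
    (9 / 10) ^ 8 * GG e p f q w ≤ TT e p f q w := by
  have h1 := T_ge h.ge w
  have h2 := T_ge h.ge.ren w
  have h3 := T3_ge h.gf w
  have h4 := T3_ge h.gf.ren w
  have p1 := g_pos h.ge w
  have p2 := g_pos h.ge.ren w
  have p3 := g3_pos h.gf w
  have p4 := g3_pos h.gf.ren w
  have q1 : 0 ≤ T e p w := le_trans (by positivity) h1
  have q2 : 0 ≤ T (re e p) (rp e p) w := le_trans (by positivity) h2
  have q3 : 0 ≤ T3 f q w := le_trans (by positivity) h3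
  calc (9 / 10) ^ 8 * GG e p f q w
      = ((9 / 10 * g e p w) * (9 / 10 * g (re e p) (rp e p) w)) *
        (((9 / 10) ^ 3 * g3 f q w) * ((9 / 10) ^ 3 * g3 (re f q) (rp f q) w)) := by
        simp only [GG]; ring
    _ ≤ TT e p f q w :=
        mul_le_mul (mul_le_mul h1 h2 (by positivity) q1) (mul_le_mul h3 h4 (by positivity) q3)
          (by positivity) (mul_nonneg q1 q2)

theorem imp_of_lt (h : Om e p f q) {j : ℕ} {v v' : List Bool} (hj : 0 < j)
    (hlen : v'.length = j * v.length) {D : ℝ} (hD : 0 < D)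
    (hjct : ∀ k, D * (GG e p f q v' * GG e p f q (rep k v')) ≤ GG e p f q (v' ++ rep k v'))
    (hlt : GG e p f q v ^ j < D * GG e p f q v') : Imp (TT e p f q) v := by
  have hG := GG_pos h v
  have hG' := GG_pos h v'
  have hGj : 0 < GG e p f q v ^ j := pow_pos hG j
  have hc1 : 1 < D * GG e p f q v' / GG e p f q v ^ j := (one_lt_div hGj).2 hlt
  refine ⟨j, v', (D * GG e p f q v' / GG e p f q v ^ j) ^ 3, (9 / 10) ^ 8 / 2 ^ 8, hj, hlen,
    one_lt_pow₀ hc1 (by norm_num), by positivity, fun k => ?_⟩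
  calc (9 / 10) ^ 8 / 2 ^ 8 * ((D * GG e p f q v' / GG e p f q v ^ j) ^ 3) ^ k *
        TT e p f q (rep (3 * j * k) v)
      ≤ (9 / 10) ^ 8 / 2 ^ 8 * ((D * GG e p f q v' / GG e p f q v ^ j) ^ 3) ^ k *
        (2 ^ 8 * GG e p f q v ^ (3 * j * k)) := by
        refine mul_le_mul_of_nonneg_left ?_ (by positivity)
        exact (TT_le h _).trans (mul_le_mul_of_nonneg_left (GG_rep_le h v _) (by positivity))
    _ = (9 / 10) ^ 8 * (D * GG e p f q v') ^ (3 * k) := by
        have h1 : GG e p f q v ^ (3 * j * k) = (GG e p f q v ^ j) ^ (3 * k) := by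
          rw [← pow_mul]; congr 1; ring
        have h2 : (D * GG e p f q v' / GG e p f q v ^ j) ^ (3 * k) *
            (GG e p f q v ^ j) ^ (3 * k) = (D * GG e p f q v') ^ (3 * k) := by
          rw [← mul_pow, div_mul_cancel₀ _ hGj.ne']
        rw [h1, ← pow_mul, ← h2]
        ring
    _ ≤ (9 / 10) ^ 8 * GG e p f q (rep (3 * k) v') :=
        mul_le_mul_of_nonneg_left (GG_rep_ge h hD hjct _) (by positivity)
    _ ≤ TT e p f q (rep (3 * k) v') := TT_ge h _

end Pool.Agent.MP9a50b7.NoFP
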