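import Pool.Agent.Lib.MP_9a50b7_lc.NoFP.Mat
import Pool.Agent.Lib.MP_9a50b7_lc.NoFP.Final

/-!
# A pair of non-negative integer matrices without the finiteness property
-/

set_option autoImplicit false

namespace Pool.Agent.MP9a50b7.NoFP
open scoped Kronecker

/-- The non-negative integer letters (`K = 2 t + 4`); they are simultaneously similar to
the letters `Z K`. -/
def Y (t : ℕ) : Bool → Matrix (Fin 2) (Fin 2) ℕ
  | false => !![2 * t + 4, 2 * t + 3; 0, 1]
  | true => !![2 * t + 2, t; 2, 2]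

/-- The operator `x ⊗ y ⊗ z ↦ y ⊗ z ⊗ Y_c x`. -/
def Y8 (t : ℕ) (c : Bool) : Matrix (Fin 2 × Fin 2 × Fin 2) (Fin 2 × Fin 2 × Fin 2) ℕ :=
  fun i j => if i.1 = j.2.1 ∧ i.2.1 = j.2.2 then Y t c i.2.2 j.1 else 0

/-- The two non-negative integer matrices. -/
def NN (c : Bool) : Matrix I I ℕ :=
  (Y 4998 c ⊗ₖ (Y 4998 (!c) * Y 4998 false)) ⊗ₖ
    (Y8 499998 c ⊗ₖ (Y8 499998 (!c) * Y8 499998 false))

/-! ### Letters -/

/-- The change of basis. -/
noncomputable def Sb : Matrix (Fin 2) (Fin 2) ℝ := !![1, 1; 0, -(1 / 2)]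
/-- Its inverse. -/
noncomputable def Sbi : Matrix (Fin 2) (Fin 2) ℝ := !![1, 2; 0, -2]

theorem Sb_mul_Sbi : Sb * Sbi = 1 := by
  ext i j
  fin_cases i <;> fin_cases j <;> simp [Sb, Sbi, Matrix.mul_apply, Fin.sum_univ_two]

theorem Sbi_mul_Sb : Sbi * Sb = 1 := by
  ext i j
  fin_cases i <;> fin_cases j <;> simp [Sb, Sbi, Matrix.mul_apply, Fin.sum_univ_two]

private theorem nn_letter (t : ℕ) (ε : ℝ) (hK : ((2 * t + 4 : ℕ) : ℝ) * ε = 1) (c : Bool) :
    (Y t c).map (Nat.cast : ℕ → ℝ) = ((2 * t + 4 : ℕ) : ℝ) • (Sbi * M ε 1 c * Sb) := by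
  push_cast at hK ⊢
  cases c <;> ext i j <;> fin_cases i <;> fin_cases j <;>
    simp [Y, M, Sb, Sbi] <;> linarith

private theorem nn_prod (t : ℕ) (ε : ℝ) (hK : ((2 * t + 4 : ℕ) : ℝ) * ε = 1) (w : List Bool) :
    ((w.map (Y t)).prod).map (Nat.cast : ℕ → ℝ) =
      ((2 * t + 4 : ℕ) : ℝ) ^ w.length • (Sbi * P ε 1 w * Sb) := by
  induction w with
  | nil =>
    rw [P_nil, List.map_nil, List.prod_nil, mul_one, Sbi_mul_Sb]
    simp
  | cons c w ih =>
    have h1 : ((((c :: w).map (Y t)).prod).map (Nat.cast : ℕ → ℝ)) =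
        ((Y t c).map (Nat.cast : ℕ → ℝ)) * (((w.map (Y t)).prod).map (Nat.cast : ℕ → ℝ)) := by
      rw [List.map_cons, List.prod_cons]
      ext i j
      simp [Matrix.mul_apply]
    rw [h1, ih, nn_letter t ε hK, P_cons, Matrix.smul_mul, Matrix.mul_smul, smul_smul,
      List.length_cons, pow_succ']
    congr 1
    calc Sbi * M ε 1 c * Sb * (Sbi * P ε 1 w * Sb)
        = Sbi * M ε 1 c * (Sb * Sbi) * P ε 1 w * Sb := by simp only [Matrix.mul_assoc]
      _ = Sbi * (M ε 1 c * P ε 1 w) * Sb := by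
          rw [Sb_mul_Sbi, Matrix.mul_one]; simp only [Matrix.mul_assoc]

private theorem nn_trace (t : ℕ) (ε : ℝ) (hK : ((2 * t + 4 : ℕ) : ℝ) * ε = 1) (w : List Bool) :
    (((w.map (Y t)).prod.trace : ℕ) : ℝ) = ((2 * t + 4 : ℕ) : ℝ) ^ w.length * T ε 1 w := by
  have h1 : (((w.map (Y t)).prod.trace : ℕ) : ℝ) =
      (((w.map (Y t)).prod).map (Nat.cast : ℕ → ℝ)).trace := by
    simp [Matrix.trace]
  rw [h1, nn_prod t ε hK, Matrix.trace_smul, Matrix.trace_mul_cycle, Sb_mul_Sbi,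
    Matrix.one_mul, T, smul_eq_mul]

private theorem nn_entry_le {t : ℕ} {ε : ℝ} (hK : ((2 * t + 4 : ℕ) : ℝ) * ε = 1)
    (h : Good ε 1) (w : List Bool) (i j : Fin 2) :
    (((w.map (Y t)).prod i j : ℕ) : ℝ) ≤ 9 * (((w.map (Y t)).prod.trace : ℕ) : ℝ) := by
  have hK1 : (0 : ℝ) < ((2 * t + 4 : ℕ) : ℝ) ^ w.length := pow_pos (by positivity) _
  have h1 : (((w.map (Y t)).prod i j : ℕ) : ℝ) =
      (((w.map (Y t)).prod).map (Nat.cast : ℕ → ℝ)) i j := rfl
  rw [h1, nn_prod t ε hK, nn_trace t ε hK, Matrix.smul_apply, smul_eq_mul, mul_left_comm]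
  refine mul_le_mul_of_nonneg_left ?_ hK1.le
  have h00 := abs_le.1 (P_entry_le h w 0 0)
  have h01 := abs_le.1 (P_entry_le h w 0 1)
  have h10 := abs_le.1 (P_entry_le h w 1 0)
  have h11 := abs_le.1 (P_entry_le h w 1 1)
  have hT : 0 ≤ T ε 1 w := by linarith [(abs_nonneg _).trans (P_entry_le h w 0 0)]
  rw [Matrix.eta_fin_two (P ε 1 w), Sb, Sbi, Matrix.mul_fin_two, Matrix.mul_fin_two]
  fin_cases i <;> fin_cases j <;> simp <;>
    linarith [h00.1, h00.2, h01.1, h01.2, h10.1, h10.2, h11.1, h11.2]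

/-! ### Products -/

private theorem nn_kron {ι κ : Type} [Fintype ι] [Fintype κ] [DecidableEq ι] [DecidableEq κ]
    (A : Bool → Matrix ι ι ℕ) (B : Bool → Matrix κ κ ℕ) (w : List Bool) :
    (w.map (fun c => A c ⊗ₖ B c)).prod = (w.map A).prod ⊗ₖ (w.map B).prod := by
  induction w with
  | nil => simp
  | cons c w ih =>
    rw [List.map_cons, List.prod_cons, ih, List.map_cons, List.prod_cons, List.map_cons,
      List.prod_cons, Matrix.mul_kronecker_mul]

private theorem nn_sub {ι : Type} [Fintype ι] [DecidableEq ι]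
    (A : Bool → Matrix ι ι ℕ) (w : List Bool) :
    (w.map (fun c => A (!c) * A false)).prod = ((sub w).map A).prod := by
  induction w with
  | nil => simp [sub]
  | cons c w ih =>
    rw [List.map_cons, List.prod_cons, ih, sub, List.map_cons, List.prod_cons, List.map_cons,
      List.prod_cons, mul_assoc]

private theorem nn_dec_length (w : List Bool) :
    (dec w).2.2.length + ((dec w).2.1.length + (dec w).1.length) = w.length := by
  induction w with
  | nil => simp [dec]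
  | cons c w ih =>
    rw [dec, List.length_cons]
    simp only [List.length_cons]
    omega

private theorem nn_Y8_two (t : ℕ) (c1 c2 : Bool) (i j : Fin 2 × Fin 2 × Fin 2) :
    (Y8 t c1 * Y8 t c2) i j
      = if i.1 = j.2.2 then Y t c1 i.2.2 j.2.1 * Y t c2 i.2.1 j.1 else 0 := by
  rw [Matrix.mul_apply, Finset.sum_eq_single (j.2.1, i.1, i.2.1)]
  · by_cases h : i.1 = j.2.2 <;> simp [Y8, h]
  · intro k _ hk
    simp only [Y8]
    by_cases h1 : i.1 = k.2.1 ∧ i.2.1 = k.2.2
    · by_cases h2 : k.1 = j.2.1 ∧ k.2.1 = j.2.2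
      · exfalso
        apply hk
        rw [h1.1, h1.2, ← h2.1]
      · rw [if_neg h2, mul_zero]
    · rw [if_neg h1, zero_mul]
  · intro h
    exact absurd (Finset.mem_univ _) h

private theorem nn_Y8_three (t : ℕ) (c1 c2 c3 : Bool) :
    Y8 t c1 * Y8 t c2 * Y8 t c3 = Y t c3 ⊗ₖ (Y t c2 ⊗ₖ Y t c1) := by
  ext i j
  rw [Matrix.mul_apply, Finset.sum_eq_single (j.2.1, j.2.2, i.1)]
  · rw [nn_Y8_two]
    simp only [Y8, Matrix.kroneckerMap_apply]
    simp
    ring
  · intro k _ hk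
    rw [nn_Y8_two]
    simp only [Y8]
    by_cases h1 : i.1 = k.2.2
    · by_cases h2 : k.1 = j.2.1 ∧ k.2.1 = j.2.2
      · exfalso
        apply hk
        rw [h1, ← h2.1, ← h2.2]
      · rw [if_neg h2, mul_zero]
    · rw [if_neg h1, zero_mul]
  · intro h
    exact absurd (Finset.mem_univ _) h

private theorem nn_Y8_prod (t : ℕ) (m : ℕ) : ∀ w : List Bool, w.length = 3 * m →
    (w.map (Y8 t)).prod = ((dec w).2.2.map (Y t)).prod ⊗ₖ
      (((dec w).2.1.map (Y t)).prod ⊗ₖ ((dec w).1.map (Y t)).prod) := by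
  induction m with
  | zero =>
    intro w hw
    have : w = [] := List.eq_nil_of_length_eq_zero (by omega)
    subst this
    simp [dec]
  | succ m ih =>
    intro w hw
    match w, hw with
    | x :: y :: z :: u, hw =>
      have hu : u.length = 3 * m := by
        simp only [List.length_cons] at hw
        omega
      simp only [dec, List.map_cons, List.prod_cons]
      rw [ih u hu, ← mul_assoc, ← mul_assoc, nn_Y8_three, ← Matrix.mul_kronecker_mul,
        ← Matrix.mul_kronecker_mul]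

private theorem nn_Y8_trace (t : ℕ) (ε : ℝ) (hK : ((2 * t + 4 : ℕ) : ℝ) * ε = 1)
    (w : List Bool) (hw : 3 ∣ w.length) :
    (((w.map (Y8 t)).prod.trace : ℕ) : ℝ) = ((2 * t + 4 : ℕ) : ℝ) ^ w.length * T3 ε 1 w := by
  obtain ⟨m, hm⟩ := hw
  rw [nn_Y8_prod t m w hm, Matrix.trace_kronecker, Matrix.trace_kronecker, Nat.cast_mul,
    Nat.cast_mul, nn_trace t ε hK, nn_trace t ε hK, nn_trace t ε hK, T3]
  have h := nn_dec_length w
  rw [← h, pow_add, pow_add]
  ring

private theorem nn_Y8_entry_le {t : ℕ} {ε : ℝ} (hK : ((2 * t + 4 : ℕ) : ℝ) * ε = 1)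
    (h : Good ε 1) (w : List Bool) (hw : 3 ∣ w.length) (i j : Fin 2 × Fin 2 × Fin 2) :
    (((w.map (Y8 t)).prod i j : ℕ) : ℝ) ≤ 9 ^ 3 * (((w.map (Y8 t)).prod.trace : ℕ) : ℝ) := by
  obtain ⟨m, hm⟩ := hw
  rw [nn_Y8_prod t m w hm, Matrix.trace_kronecker, Matrix.trace_kronecker,
    Matrix.kroneckerMap_apply, Matrix.kroneckerMap_apply, Nat.cast_mul, Nat.cast_mul,
    Nat.cast_mul, Nat.cast_mul]
  have h1 := nn_entry_le hK h (dec w).2.2 i.1 j.1
  have h2 := nn_entry_le hK h (dec w).2.1 i.2.1 j.2.1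
  have h3 := nn_entry_le hK h (dec w).1 i.2.2 j.2.2
  have h23 := mul_le_mul h2 h3 (Nat.cast_nonneg _) (by positivity)
  have h123 := mul_le_mul h1 h23 (by positivity) (by positivity)
  refine h123.trans (le_of_eq ?_)
  ring

private theorem nn_N_prod (w : List Bool) :
    (w.map NN).prod = ((w.map (Y 4998)).prod ⊗ₖ ((sub w).map (Y 4998)).prod) ⊗ₖ
      ((w.map (Y8 499998)).prod ⊗ₖ ((sub w).map (Y8 499998)).prod) := by
  rw [← nn_sub, ← nn_sub, ← nn_kron, ← nn_kron, ← nn_kron]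
  rfl

private theorem nn_K : ((2 * 4998 + 4 : ℕ) : ℝ) * (1 / 10000) = 1 := by norm_num
private theorem nn_L : ((2 * 499998 + 4 : ℕ) : ℝ) * (1 / 1000000) = 1 := by norm_num

private theorem nn_good_e : Good (1 / 10000) 1 := by
  refine ⟨?_, ?_, ?_, ?_⟩ <;> norm_num

private theorem nn_good_f : Good (1 / 1000000) 1 := by
  refine ⟨?_, ?_, ?_, ?_⟩ <;> norm_num

theorem trace_NN : ∃ D : ℝ, 0 < D ∧ ∀ w : List Bool, 3 ∣ w.length →
    (((w.map NN).prod.trace : ℕ) : ℝ) =
      D ^ w.length * TT (1 / 10000) 1 (1 / 1000000) 1 w := by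
  refine ⟨((10000 : ℝ) ^ 3 * R (1 / 10000) 1) * ((1000000 : ℝ) ^ 3 * R (1 / 1000000) 1), ?_, ?_⟩
  · have h1 := nn_good_e.R_pos
    have h2 := nn_good_f.R_pos
    positivity
  · intro w hw
    have hs : 3 ∣ (sub w).length := by
      rw [length_sub]
      exact hw.mul_left 2
    have e1 : ((2 * 4998 + 4 : ℕ) : ℝ) = 10000 := by norm_num
    have e2 : ((2 * 499998 + 4 : ℕ) : ℝ) = 1000000 := by norm_num
    rw [nn_N_prod, Matrix.trace_kronecker, Matrix.trace_kronecker, Matrix.trace_kronecker,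
      Nat.cast_mul, Nat.cast_mul, Nat.cast_mul, nn_trace _ _ nn_K, nn_trace _ _ nn_K,
      nn_Y8_trace _ _ nn_L w hw, nn_Y8_trace _ _ nn_L (sub w) hs, T_sub nn_good_e,
      T3_sub nn_good_f w hw, length_sub, TT, mul_pow _ ((1000000 : ℝ) ^ 3 * _),
      mul_pow ((10000 : ℝ) ^ 3), mul_pow ((1000000 : ℝ) ^ 3), ← pow_mul, ← pow_mul, e1, e2]
    generalize (10000 : ℝ) = a
    generalize (1000000 : ℝ) = b
    ring

theorem entry_NN (w : List Bool) (hw : 3 ∣ w.length) (i j : I) :
    (((w.map NN).prod i j : ℕ) : ℝ) ≤ 9 ^ 8 * (((w.map NN).prod.trace : ℕ) : ℝ) := by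
  have hs : 3 ∣ (sub w).length := by
    rw [length_sub]
    exact hw.mul_left 2
  rw [nn_N_prod, Matrix.trace_kronecker, Matrix.trace_kronecker, Matrix.trace_kronecker,
    Matrix.kroneckerMap_apply, Matrix.kroneckerMap_apply, Matrix.kroneckerMap_apply,
    Nat.cast_mul, Nat.cast_mul, Nat.cast_mul, Nat.cast_mul, Nat.cast_mul, Nat.cast_mul]
  have h1 := nn_entry_le nn_K nn_good_e w i.1.1 j.1.1
  have h2 := nn_entry_le nn_K nn_good_e (sub w) i.1.2 j.1.2
  have h3 := nn_Y8_entry_le nn_L nn_good_f w hw i.2.1 j.2.1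
  have h4 := nn_Y8_entry_le nn_L nn_good_f (sub w) hs i.2.2 j.2.2
  have h12 := mul_le_mul h1 h2 (Nat.cast_nonneg _) (by positivity)
  have h34 := mul_le_mul h3 h4 (Nat.cast_nonneg _) (by positivity)
  have h := mul_le_mul h12 h34 (by positivity) (by positivity)
  refine h.trans (le_of_eq ?_)
  ring

/-! ### The finiteness property fails -/

/-- The real matrices. -/
noncomputable def NNR (c : Bool) : Matrix I I ℝ := (NN c).map (Nat.cast : ℕ → ℝ)

theorem prod_NNR (w : List Bool) :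
    (w.map NNR).prod = ((w.map NN).prod).map (Nat.cast : ℕ → ℝ) := by
  induction w with
  | nil =>
    rw [List.map_nil, List.map_nil, List.prod_nil, List.prod_nil,
      Matrix.map_one _ Nat.cast_zero Nat.cast_one]
  | cons c w ih =>
    rw [List.map_cons, List.prod_cons, ih, List.map_cons, List.prod_cons]
    unfold NNR
    ext i j
    rw [Matrix.mul_apply, Matrix.map_apply, Matrix.mul_apply, Nat.cast_sum]
    refine Finset.sum_congr rfl fun k _ => ?_
    rw [Nat.cast_mul]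
    rfl

theorem trace_NNR (w : List Bool) :
    (w.map NNR).prod.trace = (((w.map NN).prod.trace : ℕ) : ℝ) := by
  rw [prod_NNR, Matrix.trace, Matrix.trace, Nat.cast_sum]
  rfl

/-- The pair `NN` has no finiteness property. -/
theorem not_FPg_NN : ¬ FPg NNR := by
  obtain ⟨D, hD, htr⟩ := trace_NN
  refine not_fpg_of_imp NNR (9 ^ 8) (fun w hw i j => ?_) (fun w hw => ?_) ?_
  · rw [trace_NNR, prod_NNR, Matrix.map_apply, abs_of_nonneg (Nat.cast_nonneg _)]
    exact entry_NN w hw i j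
  · obtain ⟨j, v', c, κ, hj, hlen, hc, hκ, hk⟩ := imp_TT base_Om w hw
    refine ⟨j, v', c, κ, hj, hlen, hc, hκ, fun k => ?_⟩
    have e1 : (rep (3 * j * k) w).length = 3 * (j * k * w.length) := by rw [length_rep]; ring
    have e2 : (rep (3 * k) v').length = 3 * (j * k * w.length) := by rw [length_rep, hlen]; ring
    beta_reduce
    rw [trace_NNR, trace_NNR, htr _ ⟨_, e1⟩, htr _ ⟨_, e2⟩, e1, e2]
    have h2 := mul_le_mul_of_nonneg_left (hk k) (pow_pos hD (3 * (j * k * w.length))).le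
    calc _ = _ := by ring
      _ ≤ _ := h2
  · refine ⟨(9 / 10) ^ 8, D ^ 3, by positivity, by positivity, fun k => ?_⟩
    have e1 : (NNR false) ^ (3 * k) = ((List.replicate (3 * k) false).map NNR).prod := by
      rw [List.map_replicate, List.prod_replicate]
    rw [e1, trace_NNR, htr _ (by rw [List.length_replicate]; exact ⟨k, rfl⟩),
      List.length_replicate, pow_mul, mul_comm]
    refine mul_le_mul_of_nonneg_left ?_ (by positivity)
    have h2 := TT_ge base_Om (List.replicate (3 * k) false)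
    have h3 : ∀ m : ℕ, GG (1 / 10000) 1 (1 / 1000000) 1 (List.replicate m false) = 1 := by
      intro m
      induction m with
      | zero => exact GG_nil _ _ _ _
      | succ m ih => rw [List.replicate_succ, GG_false_cons, ih]
    rw [h3, mul_one] at h2
    exact h2

/-- products of casts -/
private theorem nn_prod_cast {ι : Type} {n : ℕ} {A : Type} [Semiring A]
    (N : ι → Matrix (Fin n) (Fin n) ℕ) (w : List ι) :
    (w.map fun k => (N k).map (Nat.cast : ℕ → A)).prod =
      ((w.map N).prod).map (Nat.cast : ℕ → A) := by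
  induction w with
  | nil =>
    rw [List.map_nil, List.map_nil, List.prod_nil, List.prod_nil,
      Matrix.map_one _ Nat.cast_zero Nat.cast_one]
  | cons c w ih =>
    rw [List.map_cons, List.prod_cons, ih, List.map_cons, List.prod_cons]
    ext i j
    rw [Matrix.mul_apply, Matrix.map_apply, Matrix.mul_apply, Nat.cast_sum]
    refine Finset.sum_congr rfl fun k _ => ?_
    rw [Nat.cast_mul]
    rfl

/-- A pair of square matrices with non-negative integer entries without the finiteness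
property, in elementary form. -/
theorem exists_pair : ∃ (n : ℕ) (N : Fin 2 → Matrix (Fin n) (Fin n) ℕ), 0 < n ∧
    ∀ w : List (Fin 2), w ≠ [] → ∀ z : ℂ,
      (Matrix.charpoly ((w.map N).prod.map (Nat.cast : ℕ → ℂ))).IsRoot z →
        ∃ ε : ℝ, 0 < ε ∧ ∀ C : ℝ, ∃ (u : List (Fin 2)) (i j : Fin n),
          C * (‖z‖ ^ ((1 : ℝ) / (w.length : ℝ)) + ε) ^ u.length <
            (((u.map N).prod i j : ℕ) : ℝ) := by
  classical
  set e := Fintype.equivFin I with he
  have hn : 0 < Fintype.card I := Fintype.card_pos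
  let N : Fin 2 → Matrix (Fin (Fintype.card I)) (Fin (Fintype.card I)) ℕ := fun k =>
    (NN (finTwoEquiv k)).submatrix e.symm e.symm
  let M : Fin 2 → Matrix (Fin (Fintype.card I)) (Fin (Fintype.card I)) ℤ := fun k =>
    (N k).map (Nat.cast : ℕ → ℤ)
  have hM : ¬ FPe M := by
    rw [fpe_iff_fpg hn]
    intro h1
    have h2 : (fun k => (M k).map (Int.cast : ℤ → ℝ)) =
        fun k => ((fun k => NNR (finTwoEquiv k)) k).submatrix e.symm e.symm := by
      funext k
      ext i j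
      simp only [M, N, NNR, Matrix.map_apply, Matrix.submatrix_apply]
      exact Int.cast_natCast _
    rw [h2, fpg_reindex_iff e (M := fun k => NNR (finTwoEquiv k))] at h1
    exact not_FPg_NN (fpg_comp_equiv (M := NNR) finTwoEquiv h1)
  refine ⟨Fintype.card I, N, hn, fun w hw z hz => ?_⟩
  by_contra hcon
  push Not at hcon
  refine hM ⟨w, hw, z, ?_, fun ε hε => ?_⟩
  · have e1 : Matrix.map (w.map M).prod (Int.cast : ℤ → ℂ) =
        (w.map N).prod.map (Nat.cast : ℕ → ℂ) := by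
      have : (w.map M).prod = ((w.map N).prod).map (Nat.cast : ℕ → ℤ) := nn_prod_cast N w
      rw [this]
      ext i j
      simp only [Matrix.map_apply]
      exact Int.cast_natCast _
    rw [e1]
    exact hz
  · obtain ⟨C, hC⟩ := hcon ε hε
    refine ⟨C, fun u i j => ?_⟩
    have : (u.map M).prod = ((u.map N).prod).map (Nat.cast : ℕ → ℤ) := nn_prod_cast N u
    rw [this, Matrix.map_apply, Int.cast_natCast, abs_of_nonneg (Nat.cast_nonneg _)]
    exact hC u i j

end Pool.Agent.MP9a50b7.NoFP
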